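import Mathlib

set_option autoImplicit false

/-!
# Integral trees and the tree metric of a free group
-/

namespace Pool.Agent.H17R2

/-- An integer valued metric satisfying the four point condition and parity: the vertex set of a
simplicial tree (connectedness is not required here). -/
structure ZTree (V : Type*) where
  d : V → V → ℤ
  d_self : ∀ p, d p p = 0
  d_comm : ∀ p q, d p q = d q p
  d_nonneg : ∀ p q, 0 ≤ d p q
  tri : ∀ p q r, d p r ≤ d p q + d q r
  eq_of_zero : ∀ p q, d p q = 0 → p = q
  par : ∀ p q r, (2:ℤ) ∣ d p q + d q r + d p r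
  four : ∀ p q r s, d p q + d r s ≤ max (d p r + d q s) (d p s + d q r)

section lcp

variable {β : Type*} [DecidableEq β]

/-- Length of the longest common prefix. -/
def lcp : List β → List β → ℕ
  | a :: l, b :: m => if a = b then lcp l m + 1 else 0
  | [], _ => 0
  | _ :: _, [] => 0

lemma lcp_comm (l m : List β) : lcp l m = lcp m l := by
  induction l generalizing m with
  | nil => cases m <;> simp [lcp]
  | cons a l ih =>
    cases m with
    | nil => simp [lcp]
    | cons b m =>
      simp only [lcp]
      by_cases h : a = b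
      · subst h; simp [ih m]
      · rw [if_neg h, if_neg (Ne.symm h)]

lemma lcp_le_left (l m : List β) : lcp l m ≤ l.length := by
  induction l generalizing m with
  | nil => simp [lcp]
  | cons a l ih =>
    cases m with
    | nil => simp [lcp]
    | cons b m =>
      simp only [lcp]
      split_ifs
      · simpa using ih m
      · simp

lemma lcp_le_right (l m : List β) : lcp l m ≤ m.length := by
  rw [lcp_comm]; exact lcp_le_left _ _

lemma lcp_ultra (a b c : List β) : min (lcp a b) (lcp b c) ≤ lcp a c := by
  induction a generalizing b c with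
  | nil => simp [lcp]
  | cons x a ih =>
    cases b with
    | nil => simp [lcp]
    | cons y b =>
      cases c with
      | nil => simp [lcp]
      | cons z c =>
        simp only [lcp]
        by_cases h1 : x = y
        · by_cases h2 : y = z
          · subst h1; subst h2
            simp only [if_true]
            have := ih b c
            omega
          · simp [h2]
        · simp [h1]

lemma lcp_spec (l m : List β) : ∃ c u v, l = c ++ u ∧ m = c ++ v ∧ c.length = lcp l m ∧
    (∀ x ∈ u.head?, ∀ y ∈ v.head?, x ≠ y) := by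
  induction l generalizing m with
  | nil => exact ⟨[], [], m, rfl, rfl, by simp [lcp], by simp⟩
  | cons a l ih =>
    cases m with
    | nil => exact ⟨[], a :: l, [], rfl, rfl, by simp [lcp], by simp⟩
    | cons b m =>
      by_cases h : a = b
      · subst h
        obtain ⟨c, u, v, h1, h2, h3, h4⟩ := ih m
        exact ⟨a :: c, u, v, by simp [h1], by simp [h2], by simp [lcp, h3], h4⟩
      · refine ⟨[], a :: l, b :: m, rfl, rfl, by simp [lcp, h], ?_⟩
        intro x hx y hy
        simp only [List.head?_cons, Option.mem_def, Option.some.injEq] at hx hy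
        subst hx; subst hy; exact h

end lcp

section FG

open FreeGroup

variable {α : Type*} [DecidableEq α]

lemma isReduced_invRev {u : List (α × Bool)} (h : IsReduced u) : IsReduced (invRev u) := by
  apply IsReduced.of_reduce_eq
  rw [reduce_invRev, h.reduce_eq]

lemma isReduced_glue {u v : List (α × Bool)} (hu : IsReduced u) (hv : IsReduced v)
    (h : ∀ x ∈ u.head?, ∀ y ∈ v.head?, x ≠ y) : IsReduced (invRev u ++ v) := by
  unfold FreeGroup.IsReduced
  rw [List.isChain_append]
  refine ⟨isReduced_invRev hu, hv, ?_⟩
  intro x hx y hy hxy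
  by_contra hne
  have hx' : ∃ z ∈ u.head?, x = (z.1, !z.2) := by
    simp only [invRev, List.getLast?_reverse, List.head?_map, Option.mem_def,
      Option.map_eq_some_iff] at hx
    obtain ⟨z, hz, hzx⟩ := hx
    exact ⟨z, hz, hzx.symm⟩
  obtain ⟨z, hz, rfl⟩ := hx'
  apply h z hz y hy
  ext
  · exact hxy
  · simp only at hne
    revert hne
    cases z.2 <;> cases y.2 <;> simp

lemma norm_inv_mul (g h : FreeGroup α) :
    (norm (g⁻¹ * h) : ℤ) = norm g + norm h - 2 * lcp g.toWord h.toWord := by
  obtain ⟨c, u, v, h1, h2, h3, h4⟩ := lcp_spec g.toWord h.toWord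
  have hg : g = mk c * mk u := by
    rw [mul_mk, ← h1, mk_toWord]
  have hh : h = mk c * mk v := by
    rw [mul_mk, ← h2, mk_toWord]
  have hu : FreeGroup.IsReduced u := by
    have h5 := isReduced_toWord (x := g)
    rw [h1] at h5
    exact (List.isChain_append.1 h5).2.1
  have hv : FreeGroup.IsReduced v := by
    have h5 := isReduced_toWord (x := h)
    rw [h2] at h5
    exact (List.isChain_append.1 h5).2.1
  have e : g⁻¹ * h = mk (invRev u ++ v) := by
    rw [hg, hh, ← mul_mk, ← inv_mk]; group
  have e2 : (norm (g⁻¹ * h)) = u.length + v.length := by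
    rw [e, FreeGroup.norm, toWord_mk, (isReduced_glue hu hv h4).reduce_eq]; simp
  have e3 : norm g = c.length + u.length := by
    rw [FreeGroup.norm, h1]; simp
  have e4 : norm h = c.length + v.length := by
    rw [FreeGroup.norm, h2]; simp
  rw [e2, e3, e4, ← h3]
  push_cast
  ring

/-- The tree metric of the free group. -/
def fd (g h : FreeGroup α) : ℤ := norm (g⁻¹ * h)

lemma fd_self (g : FreeGroup α) : fd g g = 0 := by simp [fd]

lemma fd_comm (g h : FreeGroup α) : fd g h = fd h g := by
  unfold fd
  rw [← norm_inv_eq]; simp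

lemma fd_nonneg (g h : FreeGroup α) : 0 ≤ fd g h := by unfold fd; positivity

lemma fd_mul (x g h : FreeGroup α) : fd (x * g) (x * h) = fd g h := by
  unfold fd; congr 1; congr 1; group

lemma fd_tri (p q r : FreeGroup α) : fd p r ≤ fd p q + fd q r := by
  unfold fd
  have : p⁻¹ * r = (p⁻¹ * q) * (q⁻¹ * r) := by group
  rw [this]
  exact_mod_cast FreeGroup.norm_mul_le _ _

lemma fd_zero (p q : FreeGroup α) (h : fd p q = 0) : p = q := by
  unfold fd at h
  have : norm (p⁻¹ * q) = 0 := by exact_mod_cast h
  rw [FreeGroup.norm_eq_zero] at this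
  have := inv_mul_eq_one.1 this
  exact this

lemma fd_base (r p q : FreeGroup α) :
    fd p q = fd r p + fd r q - 2 * lcp (r⁻¹ * p).toWord (r⁻¹ * q).toWord := by
  have h := norm_inv_mul (r⁻¹ * p) (r⁻¹ * q)
  unfold fd
  rw [← h]; congr 1; congr 1; group

/-- The free group as a tree. -/
def fTree (α : Type*) [DecidableEq α] : ZTree (FreeGroup α) where
  d := fd
  d_self := fd_self
  d_comm := fd_comm
  d_nonneg := fd_nonneg
  tri := fd_tri
  eq_of_zero := fd_zero
  par := by
    intro p q r
    have := fd_base q p r
    rw [fd_comm q p] at this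
    rw [this]
    refine ⟨fd p q + fd q r - lcp (q⁻¹ * p).toWord (q⁻¹ * r).toWord, by ring⟩
  four := by
    intro p q r s
    have h1 := fd_base r p q
    have h2 := fd_base r p s
    have h3 := fd_base r q s
    have h4 := lcp_ultra (r⁻¹ * p).toWord (r⁻¹ * s).toWord (r⁻¹ * q).toWord
    rw [lcp_comm (r⁻¹ * s).toWord] at h4
    rw [fd_comm p r, fd_comm q r]
    rcases le_total (lcp (r⁻¹ * p).toWord (r⁻¹ * s).toWord)
      (lcp (r⁻¹ * q).toWord (r⁻¹ * s).toWord) with h | h
    · rw [min_eq_left h] at h4
      apply le_max_of_le_right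
      have h5 : (lcp (r⁻¹ * p).toWord (r⁻¹ * s).toWord : ℤ) ≤
        lcp (r⁻¹ * p).toWord (r⁻¹ * q).toWord := by exact_mod_cast h4
      linarith
    · rw [min_eq_right h] at h4
      apply le_max_of_le_left
      have h5 : (lcp (r⁻¹ * q).toWord (r⁻¹ * s).toWord : ℤ) ≤
        lcp (r⁻¹ * p).toWord (r⁻¹ * q).toWord := by exact_mod_cast h4
      linarith

lemma fd_one (q : FreeGroup α) : fd 1 q = norm q := by simp [fd]

lemma fd_step (n : ℕ) (q : FreeGroup α) (h : fd 1 q ≤ n + 1) :
    ∃ p : FreeGroup α, fd 1 p ≤ n ∧ fd p q ≤ 1 := by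
  rw [fd_one] at h
  by_cases hq : (norm q : ℤ) ≤ n
  · exact ⟨q, by rw [fd_one]; exact hq, by rw [fd_self]; norm_num⟩
  · rcases List.eq_nil_or_concat q.toWord with h0 | ⟨l, a, hl⟩
    · exfalso
      apply hq
      simp [FreeGroup.norm, h0]
    · have hn : norm q = l.length + 1 := by rw [FreeGroup.norm, hl]; simp
      refine ⟨mk l, ?_, ?_⟩
      · rw [fd_one]
        have := norm_mk_le (L₁ := l)
        omega
      · have e : q = mk l * mk [a] := by
          rw [mul_mk, ← List.concat_eq_append, ← hl, mk_toWord]
        unfold fd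
        rw [e, inv_mul_cancel_left]
        have := norm_mk_le (L₁ := [a])
        simp only [List.length_singleton] at this
        exact_mod_cast this

end FG

end Pool.Agent.H17R2
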