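import Mathlib
import Pool.Agent.H17R2.Tree
import Pool.Agent.H17R2.Windmill

set_option autoImplicit false

/-!
# Families of lines in a tree satisfying metric small cancellation
-/

namespace Pool.Agent.H17R2

namespace ZTree

variable {V : Type*} (T : ZTree V)

/-- An isometrically embedded line. -/
def IsLine (φ : ℤ → V) : Prop := ∀ a b, T.d (φ a) (φ b) = |a - b|

lemma IsLine.rev {T : ZTree V} {φ : ℤ → V} (h : T.IsLine φ) : T.IsLine (fun k => φ (-k)) := by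
  intro a b
  rw [h]
  rw [show -a - -b = -(a - b) by ring, abs_neg]

lemma IsLine.shift {T : ZTree V} {φ : ℤ → V} (h : T.IsLine φ) (s : ℤ) :
    T.IsLine (fun k => φ (k + s)) := by
  intro a b
  rw [h]
  congr 1; ring

lemma step_pm {φ : ℤ → V} (h : T.IsLine φ) (p : V) (k : ℤ) :
    T.d p (φ (k + 1)) = T.d p (φ k) + 1 ∨ T.d p (φ (k + 1)) = T.d p (φ k) - 1 := by
  have h1 : T.d (φ k) (φ (k + 1)) = 1 := by rw [h]; simp
  have h2 : T.d (φ (k + 1)) (φ k) = 1 := by rw [h]; simp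
  have h3 := T.tri p (φ k) (φ (k + 1))
  have h4 := T.tri p (φ (k + 1)) (φ k)
  have h5 := T.par p (φ k) (φ (k + 1))
  rw [h1] at h3 h5
  rw [h2] at h4
  omega

lemma right_ray {φ : ℤ → V} (h : T.IsLine φ) (p : V) (c : ℤ)
    (hc : T.d p (φ c) ≤ T.d p (φ (c + 1))) (n : ℕ) :
    T.d p (φ (c + n)) = T.d p (φ c) + n ∧ T.d p (φ (c + n + 1)) = T.d p (φ c) + n + 1 := by
  induction n with
  | zero =>
    have := T.step_pm h p c
    refine ⟨by simp, ?_⟩
    simp only [Nat.cast_zero, add_zero]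
    omega
  | succ n ih =>
    obtain ⟨h1, h2⟩ := ih
    have e1 : c + ((n + 1 : ℕ) : ℤ) = c + n + 1 := by push_cast; ring
    rw [e1]
    refine ⟨by rw [h2]; push_cast; ring, ?_⟩
    have h3 := T.four p (φ (c + n + 1)) (φ (c + n)) (φ (c + n + 1 + 1))
    have h4 : T.d (φ (c + n)) (φ (c + n + 1 + 1)) = 2 := by
      rw [h, show c + (n : ℤ) - (c + n + 1 + 1) = -2 by ring]; norm_num
    have h5 : T.d (φ (c + n + 1)) (φ (c + n + 1 + 1)) = 1 := by
      rw [h, show c + (n : ℤ) + 1 - (c + n + 1 + 1) = -1 by ring]; norm_num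
    have h6 : T.d (φ (c + n + 1)) (φ (c + n)) = 1 := by
      rw [h, show c + (n : ℤ) + 1 - (c + n) = 1 by ring]; norm_num
    have h7 := T.step_pm h p (c + n + 1)
    rw [h4, h5, h6] at h3
    rcases le_max_iff.1 h3 with h8 | h8 <;> push_cast <;> omega

lemma exists_pr {φ : ℤ → V} (h : T.IsLine φ) (p : V) :
    ∃ c, ∀ k, T.d p (φ k) = T.d p (φ c) + |k - c| := by
  obtain ⟨c, hc⟩ : ∃ c, ∀ k, T.d p (φ c) ≤ T.d p (φ k) := by
    let f : ℤ → ℕ := fun k => (T.d p (φ k)).toNat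
    refine ⟨Function.argmin f, fun k => ?_⟩
    have := Function.argmin_le f k
    have h1 := T.d_nonneg p (φ (Function.argmin f))
    have h2 := T.d_nonneg p (φ k)
    simp only [f] at this h1 ⊢
    omega
  refine ⟨c, fun k => ?_⟩
  rcases le_total c k with hk | hk
  · obtain ⟨n, hn⟩ := Int.eq_ofNat_of_zero_le (sub_nonneg.2 hk)
    have e : k = c + n := by omega
    rw [e, (T.right_ray h p c (hc _) n).1]
    simp
  · obtain ⟨n, hn⟩ := Int.eq_ofNat_of_zero_le (sub_nonneg.2 hk)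
    have e : k = c - n := by omega
    have := (T.right_ray h.rev p (-c) ?_ n).1
    · simp only [neg_neg] at this
      rw [show -(-c + (n:ℤ)) = c - n by ring] at this
      rw [e, this]
      simp
    · simp only [neg_neg]
      exact hc _

/-- The nearest point projection to a line, as a coordinate. -/
noncomputable def pr (φ : ℤ → V) (p : V) : ℤ :=
  Classical.epsilon (fun c => ∀ k, T.d p (φ k) = T.d p (φ c) + |k - c|)

variable {T}

lemma IsLine.pr_spec {φ : ℤ → V} (h : T.IsLine φ) (p : V) (k : ℤ) :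
    T.d p (φ k) = T.d p (φ (T.pr φ p)) + |k - T.pr φ p| :=
  Classical.epsilon_spec (T.exists_pr h p) k

lemma IsLine.pr_eq {φ : ℤ → V} (h : T.IsLine φ) (p : V) (c : ℤ)
    (hc : ∀ k, T.d p (φ c) ≤ T.d p (φ k)) : T.pr φ p = c := by
  have h1 := h.pr_spec p c
  have h2 := hc (T.pr φ p)
  have h3 := abs_nonneg (c - T.pr φ p)
  have h4 : |c - T.pr φ p| = 0 := by omega
  have h5 := abs_eq_zero.1 h4
  omega

lemma IsLine.pr_self {φ : ℤ → V} (h : T.IsLine φ) (k : ℤ) : T.pr φ (φ k) = k := by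
  apply h.pr_eq
  intro j
  rw [T.d_self]
  exact T.d_nonneg _ _

lemma IsLine.d_eq {φ : ℤ → V} (h : T.IsLine φ) (p q : V) (hne : T.pr φ p ≠ T.pr φ q) :
    T.d p q = T.d p (φ (T.pr φ p)) + |T.pr φ p - T.pr φ q| + T.d (φ (T.pr φ q)) q := by
  set a := T.pr φ p with ha
  set b := T.pr φ q with hb
  have h1 := h.pr_spec p b
  have h2 := h.pr_spec q a
  rw [← ha] at h1
  rw [← hb] at h2
  have h3 := T.four p (φ b) q (φ a)
  have h4 : T.d (φ b) (φ a) = |a - b| := by rw [h, abs_sub_comm]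
  have h5 : 0 < |a - b| := abs_pos.2 (sub_ne_zero.2 hne)
  have h6 := T.tri p (φ a) q
  have h7 := T.tri (φ a) (φ b) q
  have h8 : T.d (φ a) (φ b) = |a - b| := h a b
  have h9 := T.d_comm (φ b) q
  have h10 := abs_sub_comm a b
  rcases le_max_iff.1 h3 with h11 | h11 <;> omega

lemma IsLine.lip {φ : ℤ → V} (h : T.IsLine φ) (p q : V) :
    |T.pr φ p - T.pr φ q| ≤ T.d p q := by
  by_cases hne : T.pr φ p = T.pr φ q
  · rw [hne]; simp [T.d_nonneg]
  · rw [h.d_eq p q hne]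
    have h1 := T.d_nonneg p (φ (T.pr φ p))
    have h2 := T.d_nonneg (φ (T.pr φ q)) q
    omega

lemma IsLine.behrstock {φ ψ : ℤ → V} (h : T.IsLine φ) (h' : T.IsLine ψ) (p : V) :
    T.pr φ p = T.pr φ (ψ (T.pr ψ p)) ∨ T.pr ψ p = T.pr ψ (φ (T.pr φ p)) := by
  by_contra hcon
  push Not at hcon
  obtain ⟨h1, h2⟩ := hcon
  have e1 := h.d_eq p (ψ (T.pr ψ p)) h1
  have e2 := h'.d_eq p (φ (T.pr φ p)) h2
  have e3 := h.pr_spec (ψ (T.pr ψ p)) (T.pr φ p)
  have e4 := h'.pr_spec (φ (T.pr φ p)) (T.pr ψ p)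
  have c1 := T.d_comm (ψ (T.pr ψ p)) (φ (T.pr φ p))
  have c2 := T.d_comm (φ (T.pr φ (ψ (T.pr ψ p)))) (ψ (T.pr ψ p))
  have c3 := T.d_comm (ψ (T.pr ψ (φ (T.pr φ p)))) (φ (T.pr φ p))
  have p1 : 0 < |T.pr φ p - T.pr φ (ψ (T.pr ψ p))| := abs_pos.2 (sub_ne_zero.2 h1)
  have n1 := T.d_nonneg (ψ (T.pr ψ p)) (φ (T.pr φ (ψ (T.pr ψ p))))
  have n2 := T.d_nonneg (φ (T.pr φ p)) (ψ (T.pr ψ (φ (T.pr φ p))))
  have n3 := abs_nonneg (T.pr ψ p - T.pr ψ (φ (T.pr φ p)))
  omega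

lemma IsLine.on_line {φ : ℤ → V} (h : T.IsLine φ) (s t : ℤ) (q : V)
    (hq : T.d (φ s) q + T.d q (φ t) = |s - t|) :
    ∃ u, q = φ u ∧ |s - u| = T.d (φ s) q ∧ |u - t| = T.d q (φ t) := by
  have h1 := h.pr_spec q s
  have h2 := h.pr_spec q t
  have h3 := T.d_comm (φ s) q
  have h4 := T.d_nonneg q (φ (T.pr φ q))
  have h5 : |s - t| ≤ |s - T.pr φ q| + |t - T.pr φ q| := by
    have := abs_sub_le s (T.pr φ q) t
    rwa [abs_sub_comm (T.pr φ q) t] at this
  have h6 : T.d q (φ (T.pr φ q)) = 0 := by omega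
  have h7 := abs_sub_comm t (T.pr φ q)
  exact ⟨T.pr φ q, T.eq_of_zero _ _ h6, by omega, by omega⟩

lemma IsLine.overlap {φ ψ : ℤ → V} (h : T.IsLine φ) (h' : T.IsLine ψ) (s t : ℤ)
    (hlt : T.pr φ (ψ s) < T.pr φ (ψ t)) :
    ∃ b ε : ℤ, (ε = 1 ∨ ε = -1) ∧ ∀ k, 0 ≤ k → k ≤ T.pr φ (ψ t) - T.pr φ (ψ s) →
      φ (T.pr φ (ψ s) + k) = ψ (b + ε * k) := by
  set a := T.pr φ (ψ s) with ha
  set a' := T.pr φ (ψ t) with ha'
  have hd := h.d_eq (ψ s) (ψ t) (by rw [← ha, ← ha']; omega)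
  rw [← ha, ← ha', h', abs_sub_comm a a', abs_of_pos (sub_pos.2 hlt)] at hd
  set e := T.d (ψ s) (φ a) with he
  set e' := T.d (φ a') (ψ t) with he'
  have ne : 0 ≤ e := T.d_nonneg _ _
  have ne' : 0 ≤ e' := T.d_nonneg _ _
  have key : ∀ k, 0 ≤ k → k ≤ a' - a → ∃ u, φ (a + k) = ψ u ∧ |s - u| = e + k ∧
      |u - t| = e' + (a' - a - k) := by
    intro k hk hk'
    have h1 := h.pr_spec (ψ s) (a + k)
    have h2 := h.pr_spec (ψ t) (a + k)
    rw [← ha, ← he, show a + k - a = k by ring, abs_of_nonneg hk] at h1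
    rw [← ha', T.d_comm (ψ t) (φ a'), ← he', show a + k - a' = -(a' - a - k) by ring, abs_neg,
      abs_of_nonneg (by omega : 0 ≤ a' - a - k), T.d_comm (ψ t)] at h2
    obtain ⟨u, hu, hu1, hu2⟩ := h'.on_line s t (φ (a + k)) (by omega)
    exact ⟨u, hu, by omega, by omega⟩
  rcases lt_or_ge s t with hst | hst
  · refine ⟨s + e, 1, Or.inl rfl, fun k hk hk' => ?_⟩
    obtain ⟨u, hu, hu1, hu2⟩ := key k hk hk'
    have hst' : |s - t| = t - s := by rw [abs_sub_comm]; exact abs_of_pos (sub_pos.2 hst)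
    have : u = s + e + k := by
      rcases abs_cases (s - u) with ⟨q1, _⟩ | ⟨q1, _⟩ <;>
      rcases abs_cases (u - t) with ⟨q2, _⟩ | ⟨q2, _⟩ <;> omega
    rw [hu, this]; congr 1; ring
  · refine ⟨s - e, -1, Or.inr rfl, fun k hk hk' => ?_⟩
    obtain ⟨u, hu, hu1, hu2⟩ := key k hk hk'
    have hst' : |s - t| = s - t := abs_of_nonneg (sub_nonneg.2 hst)
    have : u = s - e - k := by
      rcases abs_cases (s - u) with ⟨q1, _⟩ | ⟨q1, _⟩ <;>
      rcases abs_cases (u - t) with ⟨q2, _⟩ | ⟨q2, _⟩ <;> omega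
    rw [hu, this]; congr 1; ring

end ZTree

/-- The translations along a line of period `L`. -/
def trans {Γ V : Type*} [Group Γ] [MulAction Γ V] (φ : ℤ → V) (L : ℤ) : Subgroup Γ where
  carrier := {h | ∃ m : ℤ, ∀ k, h • φ k = φ (k + m * L)}
  mul_mem' := by
    rintro a b ⟨m, hm⟩ ⟨n, hn⟩
    exact ⟨m + n, fun k => by rw [mul_smul, hn, hm]; congr 1; ring⟩
  one_mem' := ⟨0, by simp⟩
  inv_mem' := by
    rintro a ⟨m, hm⟩
    refine ⟨-m, fun k => ?_⟩
    rw [inv_smul_eq_iff, hm]; congr 1; ring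

/-- A family of periodic lines in a tree with metric small cancellation. -/
structure LineFam (Γ V : Type*) [Group Γ] [MulAction Γ V] where
  T : ZTree V
  fam : Set ((ℤ → V) × ℤ)
  K : ℤ
  v0 : V
  hK : 20 ≤ K
  smul_d : ∀ (g : Γ) p q, T.d (g • p) (g • q) = T.d p q
  free : ∀ (g : Γ) (p : V), g • p = p → g = 1
  step : ∀ (n : ℕ) q, T.d v0 q ≤ n + 1 → ∃ p, T.d v0 p ≤ n ∧ T.d p q ≤ 1
  line : ∀ x ∈ fam, T.IsLine x.1
  smul_mem : ∀ g : Γ, ∀ x ∈ fam, ((fun k => g • x.1 k), x.2) ∈ fam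
  shift_mem : ∀ s : ℤ, ∀ x ∈ fam, ((fun k => x.1 (k + s)), x.2) ∈ fam
  rev_mem : ∀ x ∈ fam, ((fun k => x.1 (-k)), x.2) ∈ fam
  KL : ∀ x ∈ fam, K ≤ x.2
  sc : ∀ x ∈ fam, ∀ y ∈ fam, ∀ t : ℕ, (∀ k : ℕ, k ≤ t → x.1 k = y.1 k) →
    (x.2 ≤ K * t ∨ y.2 ≤ K * t) → x = y

namespace LineFam

variable {Γ V : Type*} [Group Γ] [MulAction Γ V] (S : LineFam Γ V)

instance : MulAction Γ S.fam where
  smul g x := ⟨((fun k => g • x.1.1 k), x.1.2), S.smul_mem g x.1 x.2⟩
  one_smul x := by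
    apply Subtype.ext
    show ((fun k => (1 : Γ) • x.1.1 k), x.1.2) = x.1
    simp
  mul_smul g h x := by
    apply Subtype.ext
    show ((fun k => (g * h) • x.1.1 k), x.1.2) = ((fun k => g • h • x.1.1 k), x.1.2)
    simp [mul_smul]

lemma smul_fst (g : Γ) (x : S.fam) : (g • x).1.1 = fun k => g • x.1.1 k := rfl
lemma smul_snd (g : Γ) (x : S.fam) : (g • x).1.2 = x.1.2 := rfl

lemma pr_smul (g : Γ) (x : S.fam) (p : V) :
    S.T.pr (g • x).1.1 (g • p) = S.T.pr x.1.1 p := by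
  apply (S.line _ (g • x).2).pr_eq
  intro k
  rw [smul_fst]
  simp only [S.smul_d]
  rw [(S.line _ x.2).pr_spec p k]
  have := abs_nonneg (k - S.T.pr x.1.1 p)
  omega

/-- Two lines in the family which are reparametrizations of each other. -/
lemma same_of (x y : S.fam) (a b ε : ℤ) (hε : ε = 1 ∨ ε = -1)
    (h : ((fun k => x.1.1 (k + a)), x.1.2) = ((fun k => y.1.1 (b + ε * k)), y.1.2)) :
    (trans x.1.1 x.1.2 : Subgroup Γ) = trans y.1.1 y.1.2 ∧ x.1.2 = y.1.2 ∧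
      ∀ p q, |S.T.pr x.1.1 p - S.T.pr x.1.1 q| = |S.T.pr y.1.1 p - S.T.pr y.1.1 q| := by
  have h1 : ∀ k, x.1.1 (k + a) = y.1.1 (b + ε * k) := fun k => congrFun (Prod.ext_iff.1 h).1 k
  have h2 : x.1.2 = y.1.2 := (Prod.ext_iff.1 h).2
  have hε2 : ε * ε = 1 := by rcases hε with h | h <;> subst h <;> norm_num
  have h3 : ∀ k, x.1.1 k = y.1.1 (b + ε * (k - a)) := fun k => by
    rw [← h1, sub_add_cancel]
  have h4 : ∀ k, y.1.1 k = x.1.1 (a + ε * (k - b)) := fun k => by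
    have e : b + ε * (a + ε * (k - b) - a) = k := by
      linear_combination (k - b) * hε2
    rw [h3, e]
  refine ⟨?_, h2, ?_⟩
  · ext g
    constructor
    · rintro ⟨m, hm⟩
      refine ⟨ε * m, fun k => ?_⟩
      have e : a + ε * (k + ε * m * y.1.2 - b) = a + ε * (k - b) + m * x.1.2 := by
        rw [← h2]
        linear_combination (m * x.1.2) * hε2
      rw [h4 k, h4 (k + ε * m * y.1.2), hm, e]
    · rintro ⟨m, hm⟩
      refine ⟨ε * m, fun k => ?_⟩
      have e : b + ε * (k + ε * m * x.1.2 - a) = b + ε * (k - a) + m * y.1.2 := by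
        rw [← h2]
        linear_combination (m * x.1.2) * hε2
      rw [h3 k, h3 (k + ε * m * x.1.2), hm, e]
  · have h5 : ∀ p, S.T.pr x.1.1 p = a + ε * (S.T.pr y.1.1 p - b) := by
      intro p
      apply (S.line _ x.2).pr_eq
      intro k
      rw [← h4, h3 k, (S.line _ y.2).pr_spec p (b + ε * (k - a))]
      have := abs_nonneg (b + ε * (k - a) - S.T.pr y.1.1 p)
      omega
    intro p q
    rw [h5, h5, show a + ε * (S.T.pr y.1.1 p - b) - (a + ε * (S.T.pr y.1.1 q - b)) =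
      ε * (S.T.pr y.1.1 p - S.T.pr y.1.1 q) by ring, abs_mul]
    rcases hε with h | h <;> subst h <;> simp

lemma repar_mem (x : S.fam) (b ε : ℤ) (hε : ε = 1 ∨ ε = -1) :
    ((fun k => x.1.1 (b + ε * k)), x.1.2) ∈ S.fam := by
  rcases hε with h | h
  · subst h
    have := S.shift_mem b x.1 x.2
    convert this using 3
    ring_nf
  · subst h
    have := S.rev_mem _ (S.shift_mem b x.1 x.2)
    convert this using 3
    ring_nf

lemma same_of_large (x y : S.fam) (s t : ℤ)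
    (h : x.1.2 ≤ S.K * |S.T.pr x.1.1 (y.1.1 s) - S.T.pr x.1.1 (y.1.1 t)|) :
    (trans x.1.1 x.1.2 : Subgroup Γ) = trans y.1.1 y.1.2 ∧ x.1.2 = y.1.2 ∧
      ∀ p q, |S.T.pr x.1.1 p - S.T.pr x.1.1 q| = |S.T.pr y.1.1 p - S.T.pr y.1.1 q| := by
  wlog hlt : S.T.pr x.1.1 (y.1.1 s) < S.T.pr x.1.1 (y.1.1 t) generalizing s t
  · rcases (not_lt.1 hlt).lt_or_eq with h1 | h1
    · exact this t s (by rwa [abs_sub_comm]) h1
    · exfalso
      rw [h1] at h
      have h2 := S.KL _ x.2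
      have h3 := S.hK
      simp at h
      omega
  obtain ⟨b, ε, hε, hk⟩ := (S.line _ x.2).overlap (S.line _ y.2) s t hlt
  set a := S.T.pr x.1.1 (y.1.1 s)
  set a' := S.T.pr x.1.1 (y.1.1 t)
  apply S.same_of x y a b ε hε
  apply S.sc _ (S.shift_mem a x.1 x.2) _ (S.repar_mem y b ε hε) (a' - a).toNat
  · intro k hk'
    have := hk k (by positivity) (by omega)
    simp only
    rw [add_comm, this]
  · left
    rw [abs_sub_comm, abs_of_pos (sub_pos.2 hlt)] at h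
    rw [Int.toNat_of_nonneg (by omega)]
    exact h

/-- The abstract family of lines attached to a `LineFam`. -/
noncomputable def toLines : Lines Γ V S.fam where
  d := S.T.d
  c := fun x p => S.T.pr x.1.1 p
  L := fun x => x.1.2
  H := fun x => trans x.1.1 x.1.2
  K := S.K
  v0 := S.v0
  hK := S.hK
  d_self := S.T.d_self
  d_smul := S.smul_d
  d_zero := by
    intro q hq
    have := S.T.d_nonneg S.v0 q
    exact (S.T.eq_of_zero _ _ (le_antisymm hq this)).symm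
  d_step := S.step
  c_smul := S.pr_smul
  c_lip := fun x p q => (S.line _ x.2).lip p q
  c_unb := by
    intro x
    refine ⟨x.1.1 0, x.1.1 x.1.2, ?_⟩
    have h2 := S.KL _ x.2
    have h3 := S.hK
    rw [(S.line _ x.2).pr_self, (S.line _ x.2).pr_self, zero_sub, abs_neg,
      abs_of_nonneg (by omega)]
    nlinarith
  L_smul := fun g x => rfl
  H_smul := by
    rintro g x h ⟨m, hm⟩
    refine ⟨m, fun k => ?_⟩
    rw [smul_fst]
    simp only [mul_smul, inv_smul_smul, hm]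
    rfl
  hKL := fun x => S.KL _ x.2
  htau := by
    rintro x h ⟨m, hm⟩ h1
    have hx := S.line _ x.2
    have hL := S.KL _ x.2
    have hK := S.hK
    refine ⟨m * x.1.2, ?_, ?_⟩
    · have hm0 : m ≠ 0 := by
        rintro rfl
        apply h1
        apply S.free h (x.1.1 0)
        rw [hm]; simp
      rw [abs_mul, abs_of_pos (by omega : 0 < x.1.2)]
      have := Int.one_le_abs hm0
      nlinarith
    · intro p
      apply hx.pr_eq
      intro k
      have e1 : x.1.1 (S.T.pr x.1.1 p + m * x.1.2) = h • x.1.1 (S.T.pr x.1.1 p) := (hm _).symm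
      have e2 : x.1.1 k = h • x.1.1 (k - m * x.1.2) := by rw [hm, sub_add_cancel]
      rw [e1, e2, S.smul_d, S.smul_d, hx.pr_spec p (k - m * x.1.2)]
      have := abs_nonneg (k - m * x.1.2 - S.T.pr x.1.1 p)
      omega
  dich := by
    intro x y
    by_cases h1 : ∃ s t, x.1.2 ≤ S.K * |S.T.pr x.1.1 (y.1.1 s) - S.T.pr x.1.1 (y.1.1 t)|
    · left
      obtain ⟨s, t, h⟩ := h1
      exact S.same_of_large x y s t h
    by_cases h2 : ∃ s t, y.1.2 ≤ S.K * |S.T.pr y.1.1 (x.1.1 s) - S.T.pr y.1.1 (x.1.1 t)|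
    · left
      obtain ⟨s, t, h⟩ := h2
      obtain ⟨q1, q2, q3⟩ := S.same_of_large y x s t h
      exact ⟨q1.symm, q2.symm, fun p q => (q3 p q).symm⟩
    right
    push Not at h1 h2
    refine ⟨Set.range (fun k => S.T.pr x.1.1 (y.1.1 k)), Set.range (fun k => S.T.pr y.1.1 (x.1.1 k)),
      ?_, ?_, ?_⟩
    · intro p
      rcases (S.line _ x.2).behrstock (S.line _ y.2) p with h | h
      · left; exact ⟨_, h.symm⟩
      · right; exact ⟨_, h.symm⟩
    · rintro _ ⟨s, rfl⟩ _ ⟨t, rfl⟩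
      exact h1 s t
    · rintro _ ⟨s, rfl⟩ _ ⟨t, rfl⟩
      exact h2 s t

/-- The group generated by the translations. -/
def N : Subgroup Γ := ⨆ x : S.fam, trans x.1.1 x.1.2

/-- Weak Greendlinger lemma: a nontrivial element of the group generated by all the translations
moves the base point along more than `1 - 6/K` of a full period of some line. -/
theorem greendlinger (g : Γ) (hg : g ∈ S.N) (h1 : g ≠ 1) : ∃ x ∈ S.fam, ∃ D : ℤ, 0 < D ∧
    (S.K - 6) * x.2 ≤ S.K * D ∧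
    S.T.d S.v0 (g • S.v0) = S.T.d S.v0 (x.1 0) + D + S.T.d (x.1 D) (g • S.v0) := by
  obtain ⟨x, hx⟩ := S.toLines.windmill g hg h1
  change (S.K - 6) * x.1.2 ≤ S.K * |S.T.pr x.1.1 S.v0 - S.T.pr x.1.1 (g • S.v0)| at hx
  have hL := S.KL _ x.2
  have hK := S.hK
  have hne : S.T.pr x.1.1 S.v0 ≠ S.T.pr x.1.1 (g • S.v0) := by
    intro h
    rw [h] at hx
    simp only [sub_self, abs_zero, mul_zero] at hx
    nlinarith
  have hd := (S.line _ x.2).d_eq _ _ hne
  set a := S.T.pr x.1.1 S.v0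
  set b := S.T.pr x.1.1 (g • S.v0)
  rcases lt_or_gt_of_ne hne with h | h
  · have e : |a - b| = b - a := by rw [abs_sub_comm]; exact abs_of_pos (sub_pos.2 h)
    rw [e] at hx hd
    refine ⟨_, S.shift_mem a x.1 x.2, b - a, by omega, hx, ?_⟩
    simp only
    rw [hd]
    congr 3 <;> ring_nf
  · have e : |a - b| = a - b := abs_of_pos (sub_pos.2 h)
    rw [e] at hx hd
    refine ⟨_, S.rev_mem _ (S.shift_mem a x.1 x.2), a - b, by omega, hx, ?_⟩
    simp only
    rw [hd]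
    congr 3 <;> ring_nf

end LineFam

end Pool.Agent.H17R2
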