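import Mathlib
import Pool.Agent.H17R2.LineFam

set_option autoImplicit false

/-!
# Small cancellation over a free group

`Words α` is a set of biinfinite periodic words in the letters `α × Bool` satisfying a metric
small cancellation condition with constant `1/K`, `K ≥ 20`.
-/

namespace Pool.Agent.H17R2

section zp

variable {G : Type*} [Group G]

/-- Partial products of a biinfinite sequence. -/
def zp (f : ℤ → G) : ℤ → G
  | Int.ofNat n => Nat.rec 1 (fun n r => r * f n) n
  | Int.negSucc n => Nat.rec 1 (fun n r => r * (f (-((n : ℤ) + 1)))⁻¹) (n + 1)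

@[simp] lemma zp_zero (f : ℤ → G) : zp f 0 = 1 := rfl

lemma zp_succ (f : ℤ → G) (k : ℤ) : zp f (k + 1) = zp f k * f k := by
  cases k with
  | ofNat n => rfl
  | negSucc n =>
    cases n with
    | zero =>
      have h1 : Int.negSucc 0 + 1 = 0 := rfl
      rw [h1]
      show (1 : G) = 1 * (f (-(((0 : ℕ) : ℤ) + 1)))⁻¹ * f (Int.negSucc 0)
      have : Int.negSucc 0 = -(((0 : ℕ) : ℤ) + 1) := by rfl
      rw [this]; simp
    | succ n =>
      have h1 : Int.negSucc (n + 1) + 1 = Int.negSucc n := rfl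
      rw [h1]
      have h2 : zp f (Int.negSucc (n + 1)) =
        zp f (Int.negSucc n) * (f (-(((n + 1 : ℕ) : ℤ) + 1)))⁻¹ := rfl
      have h3 : Int.negSucc (n + 1) = -(((n + 1 : ℕ) : ℤ) + 1) := by rfl
      rw [h2, h3]; simp

lemma zp_uniq (f : ℤ → G) (P Q : ℤ → G) (hP : ∀ k, P (k + 1) = P k * f k)
    (hQ : ∀ k, Q (k + 1) = Q k * f k) (h0 : P 0 = Q 0) (k : ℤ) : P k = Q k := by
  induction k using Int.induction_on with
  | zero => exact h0
  | succ k ih => rw [hP, hQ, ih]
  | pred k ih =>
    have h1 := hP (-(k : ℤ) - 1)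
    have h2 := hQ (-(k : ℤ) - 1)
    rw [sub_add_cancel] at h1 h2
    rw [h1, h2] at ih
    exact mul_right_cancel ih

lemma zp_add_period (f : ℤ → G) (L : ℤ) (hf : ∀ k, f (k + L) = f k) (k : ℤ) :
    zp f (k + L) = zp f L * zp f k := by
  refine zp_uniq f (fun k => zp f (k + L)) (fun k => zp f L * zp f k) ?_ ?_ (by simp) k
  · intro k
    show zp f (k + 1 + L) = zp f (k + L) * f k
    rw [show k + 1 + L = k + L + 1 by ring, zp_succ, hf]
  · intro k
    show zp f L * zp f (k + 1) = zp f L * zp f k * f k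
    rw [zp_succ, mul_assoc]

lemma zp_mul_period (f : ℤ → G) (L : ℤ) (hf : ∀ k, f (k + L) = f k) (m k : ℤ) :
    zp f (k + m * L) = zp f L ^ m * zp f k := by
  induction m using Int.induction_on with
  | zero => simp
  | succ m ih =>
    rw [show k + ((m : ℤ) + 1) * L = (k + m * L) + L by ring, zp_add_period f L hf, ih,
      add_comm, zpow_add, zpow_one, mul_assoc]
  | pred m ih =>
    have h := zp_add_period f L hf (k + (-(m : ℤ) - 1) * L)
    rw [show k + (-(m : ℤ) - 1) * L + L = k + -(m : ℤ) * L by ring, ih] at h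
    rw [zpow_sub, zpow_one]
    have h2 : zp f (k + (-(m : ℤ) - 1) * L) = (zp f L)⁻¹ * (zp f L ^ (-(m : ℤ)) * zp f k) := by
      rw [h, inv_mul_cancel_left]
    rw [h2, ← mul_assoc]
    congr 1
    have := (Commute.refl (zp f L)).zpow_right (-(m : ℤ))
    exact (this.inv_left).eq

lemma zp_eq_prod (f : ℤ → G) (n : ℕ) :
    zp f n = ((List.range n).map (fun i => f (i : ℕ))).prod := by
  induction n with
  | zero => simp
  | succ n ih =>
    push_cast
    rw [zp_succ, ih, List.range_succ]
    simp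

end zp

open FreeGroup

section words

variable {α : Type*}

/-- The inverse letter. -/
def inv2 (a : α × Bool) : α × Bool := (a.1, !a.2)

@[simp] lemma inv2_inv2 (a : α × Bool) : inv2 (inv2 a) = a := by simp [inv2]

lemma inv2_injective : Function.Injective (inv2 : α × Bool → α × Bool) :=
  Function.LeftInverse.injective inv2_inv2

lemma mk_inv2 (a : α × Bool) : mk [inv2 a] = (mk [a])⁻¹ := by
  rw [inv_mk]; rfl

/-- The path of a biinfinite word. -/
def zw (w : ℤ → α × Bool) : ℤ → FreeGroup α := zp (fun k => mk [w k])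

lemma zw_succ (w : ℤ → α × Bool) (k : ℤ) : zw w (k + 1) = zw w k * mk [w k] := zp_succ _ _

@[simp] lemma zw_zero (w : ℤ → α × Bool) : zw w 0 = 1 := rfl

lemma mk_prod (n : ℕ) (w : ℕ → α × Bool) :
    ((List.range n).map (fun i => (mk [w i] : FreeGroup α))).prod = mk ((List.range n).map w) := by
  induction n with
  | zero => rfl
  | succ n ih =>
    rw [List.range_succ, List.map_append, List.prod_append, ih, List.map_append]
    simp

lemma zw_nat (w : ℤ → α × Bool) (n : ℕ) : zw w n = mk ((List.range n).map (fun i : ℕ => w i)) := by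
  rw [zw, zp_eq_prod]
  exact mk_prod n (fun i : ℕ => w i)

lemma zw_add (w : ℤ → α × Bool) (a k : ℤ) : zw w (a + k) = zw w a * zw (fun i => w (a + i)) k := by
  refine zp_uniq (fun i => (mk [w (a + i)] : FreeGroup α)) (fun k => zw w (a + k))
    (fun k => zw w a * zw (fun i => w (a + i)) k) ?_ ?_ (by simp) k
  · intro k
    show zw w (a + (k + 1)) = zw w (a + k) * mk [w (a + k)]
    rw [← add_assoc, zw_succ]
  · intro k
    show zw w a * zw (fun i => w (a + i)) (k + 1) = zw w a * zw (fun i => w (a + i)) k * _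
    rw [zw_succ, mul_assoc]

lemma isReduced_map_range (w : ℤ → α × Bool) (hw : ∀ k, w (k + 1) ≠ inv2 (w k)) (n : ℕ) :
    FreeGroup.IsReduced ((List.range n).map (fun i : ℕ => w i)) := by
  unfold FreeGroup.IsReduced
  rw [List.isChain_iff_getElem]
  intro i hi h
  simp only [List.getElem_map, List.getElem_range] at h ⊢
  by_contra hne
  have := hw i
  apply this
  have e : ((i + 1 : ℕ) : ℤ) = (i : ℤ) + 1 := by push_cast; ring
  rw [e] at h hne
  apply Prod.ext
  · exact h.symm
  · simp only [inv2]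
    revert hne
    cases (w i).2 <;> cases (w (i + 1)).2 <;> simp

variable [DecidableEq α]

lemma norm_zw (w : ℤ → α × Bool) (hw : ∀ k, w (k + 1) ≠ inv2 (w k)) (n : ℕ) :
    norm (zw w n) = n := by
  rw [zw_nat, FreeGroup.norm, toWord_mk, (isReduced_map_range w hw n).reduce_eq]
  simp

lemma isLine_zw (w : ℤ → α × Bool) (hw : ∀ k, w (k + 1) ≠ inv2 (w k)) :
    (fTree α).IsLine (zw w) := by
  have key : ∀ a : ℤ, ∀ n : ℕ, fd (zw w a) (zw w (a + n)) = n := by
    intro a n
    unfold fd
    rw [zw_add, inv_mul_cancel_left, norm_zw]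
    intro k
    have := hw (a + k)
    rwa [add_assoc] at this
  intro a b
  show fd (zw w a) (zw w b) = |a - b|
  rcases le_total a b with h | h
  · obtain ⟨n, hn⟩ := Int.eq_ofNat_of_zero_le (sub_nonneg.2 h)
    have e : b = a + n := by omega
    subst e
    rw [key]; simp
  · obtain ⟨n, hn⟩ := Int.eq_ofNat_of_zero_le (sub_nonneg.2 h)
    have e : a = b + n := by omega
    subst e
    rw [fd_comm, key]; simp

end words

/-- The biinfinite word `w` shifted by `s`, possibly reversed. -/
def lab {α : Type*} (w : ℤ → α × Bool) (s : ℤ) : Bool → ℤ → α × Bool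
  | true, k => w (s + k)
  | false, k => inv2 (w (s - k - 1))

/-- The sign of a boolean. -/
def sg : Bool → ℤ
  | true => 1
  | false => -1

/-- A family of biinfinite periodic reduced words with metric small cancellation. -/
structure Words (α : Type*) where
  B : Set ((ℤ → α × Bool) × ℤ)
  K : ℤ
  hK : 20 ≤ K
  per : ∀ b ∈ B, ∀ k, b.1 (k + b.2) = b.1 k
  red : ∀ b ∈ B, ∀ k, b.1 (k + 1) ≠ inv2 (b.1 k)
  KL : ∀ b ∈ B, K ≤ b.2
  sc : ∀ b ∈ B, ∀ b' ∈ B, ∀ s s' ε ε', ∀ t : ℕ, (∀ k : ℕ, k < t → lab b.1 s ε k = lab b'.1 s' ε' k) →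
    (b.2 ≤ K * t ∨ b'.2 ≤ K * t) → (∀ k, lab b.1 s ε k = lab b'.1 s' ε' k) ∧ b.2 = b'.2

namespace Words

variable {α : Type*}

/-- A line with label `w`, reparametrized and translated. -/
def ln (w : ℤ → α × Bool) (g : FreeGroup α) (s : ℤ) (ε : Bool) : ℤ → FreeGroup α :=
  fun k => g * zw w (s + sg ε * k)

lemma ln_succ (w : ℤ → α × Bool) (g : FreeGroup α) (s : ℤ) (ε : Bool) (k : ℤ) :
    ln w g s ε (k + 1) = ln w g s ε k * FreeGroup.mk [lab w s ε k] := by
  cases ε with
  | true =>
    show g * zw w (s + 1 * (k + 1)) = g * zw w (s + 1 * k) * FreeGroup.mk [w (s + k)]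
    rw [show s + 1 * (k + 1) = s + k + 1 by ring, show s + 1 * k = s + k by ring, zw_succ, mul_assoc]
  | false =>
    show g * zw w (s + -1 * (k + 1)) = g * zw w (s + -1 * k) * FreeGroup.mk [inv2 (w (s - k - 1))]
    have h := zw_succ w (s - k - 1)
    rw [sub_add_cancel] at h
    rw [show s + -1 * (k + 1) = s - k - 1 by ring, show s + -1 * k = s - k by ring, h, mk_inv2]
    group

variable [DecidableEq α] (S : Words α)

lemma mk_single_inj {a b : α × Bool} (h : (FreeGroup.mk [a] : FreeGroup α) = FreeGroup.mk [b]) : a = b := by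
  have := congrArg FreeGroup.toWord h
  simpa [toWord_mk, reduce_singleton] using this

/-- The family of lines in the free group. -/
def toFam : LineFam (FreeGroup α) (FreeGroup α) where
  T := fTree α
  fam := {x | ∃ b ∈ S.B, ∃ g s ε, x = (ln b.1 g s ε, b.2)}
  K := S.K
  v0 := 1
  hK := S.hK
  smul_d := fun g p q => fd_mul g p q
  free := by
    intro g p h
    have : g * p = p := h
    simpa using this
  step := fun n q h => fd_step n q h
  line := by
    rintro _ ⟨b, hb, g, s, ε, rfl⟩ a c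
    show fd (g * zw b.1 (s + sg ε * a)) (g * zw b.1 (s + sg ε * c)) = |a - c|
    rw [fd_mul]
    have := isLine_zw b.1 (S.red b hb) (s + sg ε * a) (s + sg ε * c)
    change fd _ _ = _ at this
    rw [this]
    cases ε
    · show |s + -1 * a - (s + -1 * c)| = _
      rw [show s + -1 * a - (s + -1 * c) = -(a - c) by ring, abs_neg]
    · show |s + 1 * a - (s + 1 * c)| = _
      congr 1; ring
  smul_mem := by
    rintro h _ ⟨b, hb, g, s, ε, rfl⟩
    refine ⟨b, hb, h * g, s, ε, ?_⟩
    ext k
    · show h * (g * _) = h * g * _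
      rw [mul_assoc]
    · rfl
  shift_mem := by
    rintro r _ ⟨b, hb, g, s, ε, rfl⟩
    refine ⟨b, hb, g, s + sg ε * r, ε, ?_⟩
    ext k
    · show g * zw _ (s + sg ε * (k + r)) = g * zw _ (s + sg ε * r + sg ε * k)
      congr 2; ring
    · rfl
  rev_mem := by
    rintro _ ⟨b, hb, g, s, ε, rfl⟩
    refine ⟨b, hb, g, s, !ε, ?_⟩
    ext k
    · show g * zw _ (s + sg ε * (-k)) = g * zw _ (s + sg (!ε) * k)
      congr 2; cases ε <;> simp [sg]
    · rfl
  KL := by
    rintro _ ⟨b, hb, g, s, ε, rfl⟩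
    exact S.KL b hb
  sc := by
    rintro _ ⟨b, hb, g, s, ε, rfl⟩ _ ⟨b', hb', g', s', ε', rfl⟩ t h1 h2
    simp only at h1 h2
    have h3 : ∀ k : ℕ, k < t → lab b.1 s ε k = lab b'.1 s' ε' k := by
      intro k hk
      have e1 := h1 k hk.le
      have e2 := h1 (k + 1) hk
      push_cast at e2
      rw [ln_succ, ln_succ, e1] at e2
      exact mk_single_inj (mul_left_cancel e2)
    obtain ⟨h4, h5⟩ := S.sc b hb b' hb' s s' ε ε' t h3 h2
    have h6 : ln b.1 g s ε = ln b'.1 g' s' ε' := by
      funext k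
      refine zp_uniq (fun k => FreeGroup.mk [lab b.1 s ε k]) _ _ (ln_succ _ _ _ _) ?_ ?_ k
      · intro k
        rw [ln_succ, h4]
      · have := h1 0 (Nat.zero_le _)
        simpa using this
    rw [h6, h5]

end Words

end Pool.Agent.H17R2
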