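import Mathlib
import Pool.Agent.H17R2.FreeFam

set_option autoImplicit false

/-!
# Torsion in small cancellation groups
-/

namespace Pool.Agent.H17R2

namespace LineFam

variable {Γ V : Type*} [Group Γ] [MulAction Γ V] (S : LineFam Γ V)

lemma trans_le_N {x : (ℤ → V) × ℤ} (hx : x ∈ S.fam) : (trans x.1 x.2 : Subgroup Γ) ≤ S.N :=
  le_iSup (fun x : S.fam => (trans x.1.1 x.1.2 : Subgroup Γ)) ⟨x, hx⟩

lemma conj_mem_N (n : Γ) (hn : n ∈ S.N) : ∀ g : Γ, g * n * g⁻¹ ∈ S.N := by
  unfold N at hn
  refine Subgroup.iSup_induction (C := fun n => ∀ g : Γ, g * n * g⁻¹ ∈ S.N) _ hn ?_ ?_ ?_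
  · rintro x h ⟨m, hm⟩ g
    apply S.trans_le_N (g • x).2
    refine ⟨m, fun k => ?_⟩
    rw [smul_fst]
    simp only [mul_smul, inv_smul_smul, hm]
    rfl
  · intro g
    simp
  · intro a b ha hb g
    have e : g * (a * b) * g⁻¹ = (g * a * g⁻¹) * (g * b * g⁻¹) := by group
    rw [e]
    exact S.N.mul_mem (ha g) (hb g)

lemma N_normal : S.N.Normal := ⟨fun n hn g => S.conj_mem_N n hn g⟩

end LineFam

open FreeGroup

variable {α : Type*} [DecidableEq α]

lemma axis (g : FreeGroup α) (hg : g ≠ 1) (hmin : ∀ u, norm g ≤ norm (u⁻¹ * g * u)) :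
    ∃ ψ : ℤ → FreeGroup α, (fTree α).IsLine ψ ∧ ψ 0 = 1 ∧ ∀ k, g * ψ k = ψ (k + norm g) := by
  obtain ⟨l, hl⟩ : ∃ l, l = g.toWord := ⟨_, rfl⟩
  have hL : norm g = l.length := by rw [hl]; rfl
  have hl0 : l ≠ [] := by
    intro h
    apply hg
    rw [hl, toWord_eq_nil_iff] at h
    exact h
  have hpos : 0 < l.length := List.length_pos_of_ne_nil hl0
  have hposz : (0 : ℤ) < l.length := by exact_mod_cast hpos
  have hidx : ∀ k : ℤ, (k % l.length).toNat < l.length := by
    intro k
    have h1 := Int.emod_nonneg k hposz.ne'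
    have h2 := Int.emod_lt_of_pos k hposz
    omega
  let w : ℤ → α × Bool := fun k => l[(k % l.length).toNat]'(hidx k)
  have hmk : mk l = g := by rw [hl]; exact mk_toWord
  have hred : FreeGroup.IsReduced l := by rw [hl]; exact isReduced_toWord
  have hends : l[0]'hpos ≠ inv2 (l[l.length - 1]'(by omega)) := by
    intro hcon
    rcases l with _ | ⟨a, t⟩
    · exact hl0 rfl
    rcases List.eq_nil_or_concat t with h | ⟨m, b, h⟩
    · subst h
      simp only [List.getElem_cons_zero, List.length_singleton, inv2, Nat.sub_self] at hcon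
      have := congrArg Prod.snd hcon
      simp at this
    · rw [List.concat_eq_append] at h
      subst h
      have e1 : (a :: (m ++ [b]))[(a :: (m ++ [b])).length - 1]'(by simp) = b := by simp
      rw [e1] at hcon
      simp only [List.getElem_cons_zero] at hcon
      have h1 := hmin (mk [a])
      have e2 : g = mk [a] * mk m * mk [b] := by
        rw [← hmk]; simp
      have e3 : (mk [a])⁻¹ * g * mk [a] = mk m := by
        rw [e2, hcon, mk_inv2]; group
      rw [e3, hL] at h1
      have h2 := norm_mk_le (L₁ := m)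
      simp at h1
      omega
  have hw : ∀ k, w (k + 1) ≠ inv2 (w k) := by
    intro k hcon
    simp only [w] at hcon
    have h1 := Int.emod_nonneg k hposz.ne'
    have h2 := Int.emod_lt_of_pos k hposz
    by_cases hk : k % l.length + 1 < l.length
    · have e : ((k + 1) % (l.length : ℤ)).toNat = (k % l.length).toNat + 1 := by
        have : (k + 1) % (l.length : ℤ) = k % l.length + 1 := by
          rw [Int.add_emod, Int.emod_eq_of_lt (a := 1) (by norm_num) (by omega)]
          exact Int.emod_eq_of_lt (by omega) hk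
        rw [this]; omega
      unfold FreeGroup.IsReduced at hred
      rw [List.isChain_iff_getElem] at hred
      have h3 := hred (k % l.length).toNat (by omega)
      simp only [e] at hcon
      rw [hcon] at h3
      have h4 := h3 rfl
      simp [inv2] at h4
    · have h5 : k % l.length = l.length - 1 := by omega
      have e : ((k + 1) % (l.length : ℤ)).toNat = 0 := by
        have : (k + 1) % (l.length : ℤ) = 0 := by
          apply Int.emod_eq_zero_of_dvd
          have h6 := Int.emod_add_mul_ediv k l.length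
          exact ⟨k / l.length + 1, by linear_combination (-1) * h6 + h5⟩
        rw [this]; rfl
      apply hends
      simp only [e] at hcon
      rw [hcon]
      congr 2
      rw [h5]; omega
  refine ⟨zw w, isLine_zw w hw, rfl, ?_⟩
  have hzL : zw w (l.length : ℤ) = g := by
    rw [zw_nat, ← hmk]
    congr 1
    apply List.ext_getElem
    · simp
    · intro i hi1 hi2
      simp only [List.getElem_map, List.getElem_range, w]
      congr 1
      rw [Int.emod_eq_of_lt (by positivity) (by exact_mod_cast hi2)]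
      simp
  intro k
  rw [hL]
  have := zp_add_period (fun k => (mk [w k] : FreeGroup α)) (l.length : ℤ) (by
    intro k
    simp only [w]
    congr 4
    simp) k
  change zw w (k + l.length) = zw w l.length * zw w k at this
  rw [this, hzL]

namespace Words

variable (S : Words α)

lemma per_f (b : (ℤ → α × Bool) × ℤ) (hb : b ∈ S.B) (k : ℤ) :
    (FreeGroup.mk [b.1 (k + b.2)] : FreeGroup α) = FreeGroup.mk [b.1 k] := by
  rw [S.per b hb]

/-- The relators. -/
def rel : Set (FreeGroup α) := {r | ∃ b ∈ S.B, r = zw b.1 b.2}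

lemma N_eq : S.toFam.N = Subgroup.normalClosure S.rel := by
  apply le_antisymm
  · unfold LineFam.N
    apply iSup_le
    rintro ⟨_, b, hb, g, s, ε, rfl⟩ h ⟨m, hm⟩
    have h1 := hm 0
    have h2 : h * (g * zw b.1 (s + sg ε * 0)) = g * zw b.1 (s + sg ε * (0 + m * b.2)) := h1
    rw [show s + sg ε * (0 + m * b.2) = s + (sg ε * m) * b.2 by ring] at h2
    have h3 := zp_mul_period (fun k => (FreeGroup.mk [b.1 k] : FreeGroup α)) b.2
      (S.per_f b hb) (sg ε * m) s
    change zw b.1 (s + sg ε * m * b.2) = zw b.1 b.2 ^ (sg ε * m) * zw b.1 s at h3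
    rw [h3, mul_zero, add_zero] at h2
    have h4 : h = g * (zw b.1 b.2 ^ (sg ε * m)) * g⁻¹ := by
      have : h * (g * zw b.1 s) * (zw b.1 s)⁻¹ * g⁻¹ =
        g * (zw b.1 b.2 ^ (sg ε * m) * zw b.1 s) * (zw b.1 s)⁻¹ * g⁻¹ := by rw [h2]
      have e1 : h * (g * zw b.1 s) * (zw b.1 s)⁻¹ * g⁻¹ = h := by group
      rw [e1] at this
      rw [this]; group
    rw [h4]
    apply Subgroup.normalClosure_normal.conj_mem
    apply Subgroup.zpow_mem
    exact Subgroup.subset_normalClosure ⟨b, hb, rfl⟩
  · have := S.toFam.N_normal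
    apply Subgroup.normalClosure_le_normal
    rintro _ ⟨b, hb, rfl⟩
    have hmem : ((ln b.1 1 0 true, b.2) : (ℤ → FreeGroup α) × ℤ) ∈ S.toFam.fam :=
      ⟨b, hb, 1, 0, true, rfl⟩
    apply S.toFam.trans_le_N hmem
    refine ⟨1, fun k => ?_⟩
    show zw b.1 b.2 * (1 * zw b.1 (0 + 1 * k)) = 1 * zw b.1 (0 + 1 * (k + 1 * b.2))
    have h3 := zp_add_period (fun k => (FreeGroup.mk [b.1 k] : FreeGroup α)) b.2
      (S.per_f b hb) k
    change zw b.1 (k + b.2) = zw b.1 b.2 * zw b.1 k at h3
    simp only [one_mul, zero_add]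
    rw [h3]

lemma exists_tr (x : (ℤ → FreeGroup α) × ℤ) (hx : x ∈ S.toFam.fam) :
    ∃ t ∈ S.toFam.N, ∀ k, t * x.1 k = x.1 (k + x.2) := by
  have hx' := hx
  obtain ⟨b, hb, g, s, ε, rfl⟩ := hx
  have key : ∀ k, g * (zw b.1 b.2 ^ (sg ε)) * g⁻¹ * ln b.1 g s ε k = ln b.1 g s ε (k + b.2) := by
    intro k
    show g * (zw b.1 b.2 ^ (sg ε)) * g⁻¹ * (g * zw b.1 (s + sg ε * k)) =
      g * zw b.1 (s + sg ε * (k + b.2))
    have h3 := zp_mul_period (fun k => (FreeGroup.mk [b.1 k] : FreeGroup α)) b.2
      (S.per_f b hb) (sg ε) (s + sg ε * k)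
    change zw b.1 (s + sg ε * k + sg ε * b.2) = zw b.1 b.2 ^ (sg ε) * zw b.1 (s + sg ε * k) at h3
    rw [show s + sg ε * (k + b.2) = s + sg ε * k + sg ε * b.2 by ring, h3]
    group
  refine ⟨g * (zw b.1 b.2 ^ (sg ε)) * g⁻¹, ?_, key⟩
  apply S.toFam.trans_le_N hx'
  exact ⟨1, fun k => by rw [one_mul]; exact key k⟩

/-- A word which is not a proper power. -/
def Prim : Prop := ∀ b ∈ S.B, ∀ m : ℤ, 0 < m → m < b.2 → ∃ k, b.1 (k + m) ≠ b.1 k

lemma not_shift (hp : S.Prim) (x : (ℤ → FreeGroup α) × ℤ) (hx : x ∈ S.toFam.fam) (h : FreeGroup α)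
    (m : ℤ) (h0 : 0 < m) (h1 : m < x.2) (hh : ∀ k, h * x.1 k = x.1 (k + m)) : False := by
  obtain ⟨b, hb, g, s, ε, rfl⟩ := hx
  simp only at h1 hh
  obtain ⟨k, hk⟩ := hp b hb m h0 h1
  have hlab : ∀ k, lab b.1 s ε k = lab b.1 s ε (k + m) := by
    intro k
    have e1 := hh k
    have e2 := hh (k + 1)
    rw [show k + 1 + m = k + m + 1 by ring, ln_succ, ln_succ, ← e1, ← mul_assoc] at e2
    exact mk_single_inj (mul_left_cancel e2)
  apply hk
  cases ε with
  | true =>
    have := hlab (k - s)
    simp only [lab] at this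
    rw [show s + (k - s) = k by ring, show s + (k - s + m) = k + m by ring] at this
    exact this.symm
  | false =>
    have := hlab (s - k - m - 1)
    simp only [lab] at this
    rw [show s - (s - k - m - 1) - 1 = k + m by ring,
      show s - (s - k - m - 1 + m) - 1 = k by ring] at this
    exact inv2_injective this

theorem torsion_free (hp : S.Prim) (n : ℕ) (hn : 0 < n) :
    ∀ M : ℕ, ∀ g : FreeGroup α, norm g ≤ M → g ^ n ∈ S.toFam.N → g ∈ S.toFam.N := by
  intro M
  induction M with
  | zero =>
    intro g hg _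
    have h1 : norm g = 0 := by omega
    rw [FreeGroup.norm_eq_zero] at h1
    rw [h1]; exact one_mem _
  | succ M ih =>
    intro g hgM hgn
    have hN := S.toFam.N_normal
    by_contra hcon
    have hmin : ∀ u, ∀ n' ∈ S.toFam.N, norm g ≤ norm (u⁻¹ * (n' * g) * u) := by
      intro u n' hn'
      by_contra hlt
      push Not at hlt
      have h1 : (u⁻¹ * (n' * g) * u) ^ n ∈ S.toFam.N := by
        rw [← QuotientGroup.eq_one_iff] at hn' hgn ⊢
        have e : ((u⁻¹ * (n' * g) * u : FreeGroup α) : FreeGroup α ⧸ S.toFam.N) =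
            (u : FreeGroup α ⧸ S.toFam.N)⁻¹ * (g : FreeGroup α ⧸ S.toFam.N) *
              ((u : FreeGroup α ⧸ S.toFam.N)⁻¹)⁻¹ := by
          simp only [QuotientGroup.mk_mul, QuotientGroup.mk_inv, hn', one_mul, inv_inv]
        rw [QuotientGroup.mk_pow, e, conj_pow, ← QuotientGroup.mk_pow, hgn]
        simp
      have h2 := ih _ (by omega) h1
      apply hcon
      have h3 := hN.conj_mem _ h2 u
      have e : u * (u⁻¹ * (n' * g) * u) * u⁻¹ = n' * g := by group
      rw [e] at h3
      exact (Subgroup.mul_mem_cancel_left _ hn').1 h3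
    have hg1 : g ≠ 1 := by
      rintro rfl
      exact hcon (one_mem _)
    obtain ⟨ψ, hψ, hψ0, hψg⟩ := axis g hg1 (fun u => by simpa using hmin u 1 (one_mem _))
    set m : ℤ := norm g with hm
    have hm0 : 0 < m := by
      have : norm g ≠ 0 := fun h => hg1 (FreeGroup.norm_eq_zero.1 h)
      omega
    have hpow : ∀ j : ℕ, g ^ j = ψ (j * m) := by
      intro j
      induction j with
      | zero => simp [hψ0]
      | succ j ihj =>
        rw [pow_succ', ihj, hψg]
        congr 1; push_cast; ring
    have hgn1 : g ^ n ≠ 1 := by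
      intro h
      rw [hpow, ← hψ0] at h
      have h1 := hψ (n * m) 0
      rw [h, (fTree α).d_self] at h1
      have h2 : 0 < |(n : ℤ) * m - 0| := abs_pos.2 (by
        rw [sub_zero]
        positivity)
      omega
    obtain ⟨x, hx, D, hD, hKD, hd⟩ := S.toFam.greendlinger (g ^ n) hgn hgn1
    obtain ⟨φ, L⟩ := x
    have hφ := S.toFam.line _ hx
    have hKL := S.toFam.KL _ hx
    have hK := S.toFam.hK
    obtain ⟨t, ht, htr⟩ := S.exists_tr _ hx
    simp only at hφ hKD hd hKL htr
    set K := S.toFam.K with hKdef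
    have hd' : fd 1 (g ^ n) = fd 1 (φ 0) + D + fd (φ D) (g ^ n) := by
      have e : (g ^ n) • (S.toFam.v0) = g ^ n := by
        show g ^ n * 1 = g ^ n
        simp
      rw [e] at hd
      exact hd
    clear hd
    -- `φ` follows `ψ`
    set b := fd 1 (φ 0) with hb
    have hb0 : 0 ≤ b := fd_nonneg _ _
    have hfol : ∀ k, 0 ≤ k → k ≤ D → φ k = ψ (b + k) := by
      intro k hk hkD
      have h1 : fd (φ 0) (φ k) = k := by
        have := hφ 0 k
        change fd _ _ = _ at this
        rw [this, zero_sub, abs_neg, abs_of_nonneg hk]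
      have h2 : fd (φ k) (φ D) = D - k := by
        have := hφ k D
        change fd _ _ = _ at this
        rw [this, abs_sub_comm, abs_of_nonneg (by omega)]
      have h3 := fd_tri 1 (φ 0) (φ k)
      have h4 := fd_tri (φ k) (φ D) (g ^ n)
      have h5 := fd_tri 1 (φ k) (g ^ n)
      have h6 : fd 1 (g ^ n) = n * m := by
        have := hψ 0 (n * m)
        change fd _ _ = _ at this
        rw [hψ0, ← hpow] at this
        rw [this, zero_sub, abs_neg, abs_of_nonneg (by positivity)]
      obtain ⟨u, hu, hu1, hu2⟩ := hψ.on_line 0 (n * m) (φ k) (by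
        rw [hψ0, ← hpow]
        show fd 1 (φ k) + fd (φ k) (g ^ n) = _
        rw [zero_sub, abs_neg, abs_of_nonneg (by positivity : 0 ≤ (n : ℤ) * m)]
        omega)
      rw [hψ0] at hu1
      rw [← hpow] at hu2
      change _ = fd _ _ at hu1
      change _ = fd _ _ at hu2
      have : u = b + k := by
        rcases abs_cases (0 - u) with ⟨q1, _⟩ | ⟨q1, _⟩ <;>
        rcases abs_cases (u - n * m) with ⟨q2, _⟩ | ⟨q2, _⟩ <;> omega
      rw [hu, this]
    -- the main inequality
    have hfin : ∀ D' : ℤ, 0 ≤ D' → D' ≤ D → D' ≤ L → D' ≤ m → L < 2 * D' → False := by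
      intro D' h0 h1 h2 h3 h4
      have h5 := hmin (ψ b) t⁻¹ (inv_mem ht)
      have h6 : fd (t * ψ b) (g * ψ b) = norm ((ψ b)⁻¹ * (t⁻¹ * g) * ψ b) := by
        unfold fd
        congr 2; group
      have e0 : ψ b = φ 0 := by rw [hfol 0 le_rfl hD.le, add_zero]
      have h7 : fd (t * ψ b) (g * ψ b) ≤ (L - D') + (m - D') := by
        rw [hψg, e0, htr, zero_add]
        have h8 := fd_tri (φ L) (φ D') (ψ (b + m))
        have h9 : fd (φ L) (φ D') = L - D' := by
          have := hφ L D'
          change fd _ _ = _ at this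
          rw [this, abs_of_nonneg (by omega)]
        have h10 : fd (φ D') (ψ (b + m)) = m - D' := by
          rw [hfol D' h0 h1]
          have := hψ (b + D') (b + m)
          change fd _ _ = _ at this
          rw [this, abs_sub_comm, abs_of_nonneg (by omega)]
          ring
        omega
      omega
    have hLpos : 0 < L := by omega
    have hKL2 : (K - 6) * L ≤ K * min D L := by
      rcases le_total D L with h | h
      · rw [min_eq_left h]; exact hKD
      · rw [min_eq_right h]; nlinarith
    have hD' : 0 ≤ min D L := by omega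
    rcases le_or_gt (min D L) m with hcase | hcase
    · apply hfin (min D L) hD' (min_le_left _ _) (min_le_right _ _) hcase
      nlinarith
    · apply hfin m hm0.le (by omega) (by omega) le_rfl
      by_contra hlt
      push Not at hlt
      have hmL : m < L := by omega
      -- the lines `g φ` and `φ (· + m)` agree on a long segment
      have hag : ∀ k : ℕ, k ≤ (min D L - m).toNat → g * φ k = φ (k + m) := by
        intro k hk
        rw [hfol k (by positivity) (by omega), hψg, hfol (k + m) (by positivity) (by omega)]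
        congr 1; ring
      have heq := S.toFam.sc _ (S.toFam.smul_mem g _ hx) _ (S.toFam.shift_mem m _ hx)
        (min D L - m).toNat hag (by
          left
          show L ≤ K * _
          rw [Int.toNat_of_nonneg (by omega)]
          nlinarith)
      have heq1 : ∀ k, g * φ k = φ (k + m) := fun k => congrFun (Prod.ext_iff.1 heq).1 k
      exact S.not_shift hp _ hx g m hm0 hmL heq1

end Words

end Pool.Agent.H17R2
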