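import Mathlib
import Pool.Agent.H17R2.TorsionFree

set_option autoImplicit false

/-!
# Torsion-free small cancellation groups without the unique product property
-/

namespace Pool.Agent.H17R2

namespace NonUP

open FreeGroup

/-- Position of the `j`-th letter `y`. -/
def pos (n : ℤ) (j : ℤ) : ℤ := (j / n) * (2 * n * n) + (j % n) * (n + j % n)

lemma pos_succ (n : ℤ) (hn : 0 < n) (j : ℤ) : pos n (j + 1) = pos n j + (n + 2 * (j % n) + 1) := by
  have h1 := Int.emod_nonneg j hn.ne'
  have h2 := Int.emod_lt_of_pos j hn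
  have h3 := Int.emod_add_mul_ediv j n
  unfold pos
  by_cases h : j % n + 1 < n
  · have e1 : (j + 1) % n = j % n + 1 := by
      rw [Int.add_emod, Int.emod_eq_of_lt (a := 1) (by norm_num) (by omega)]
      exact Int.emod_eq_of_lt (by omega) h
    have e2 : (j + 1) / n = j / n := by
      have h4 := Int.emod_add_mul_ediv (j + 1) n
      rw [e1] at h4
      have : n * ((j + 1) / n) = n * (j / n) := by linarith
      exact mul_left_cancel₀ hn.ne' this
    rw [e1, e2]; ring
  · have h5 : j % n = n - 1 := by omega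
    have e1 : (j + 1) % n = 0 := by
      apply Int.emod_eq_zero_of_dvd
      exact ⟨j / n + 1, by linear_combination (-1) * h3 + h5⟩
    have e2 : (j + 1) / n = j / n + 1 := by
      have h4 := Int.emod_add_mul_ediv (j + 1) n
      rw [e1] at h4
      have : n * ((j + 1) / n) = n * (j / n + 1) := by linarith
      exact mul_left_cancel₀ hn.ne' this
    rw [e1, e2, h5]; ring

lemma pos_add (n : ℤ) (hn : 0 < n) (j m : ℤ) : pos n (j + m * n) = pos n j + m * (2 * n * n) := by
  unfold pos
  rw [Int.add_mul_emod_self_right, Int.add_mul_ediv_right _ _ hn.ne']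
  ring

lemma pos_lt_succ (n : ℤ) (hn : 0 < n) (j : ℤ) : pos n j + n < pos n (j + 1) := by
  rw [pos_succ n hn]
  have h1 := Int.emod_nonneg j hn.ne'
  omega

lemma pos_succ_le (n : ℤ) (hn : 0 < n) (j : ℤ) : pos n (j + 1) ≤ pos n j + 3 * n - 1 := by
  rw [pos_succ n hn]
  have h2 := Int.emod_lt_of_pos j hn
  omega

lemma pos_strictMono (n : ℤ) (hn : 0 < n) : StrictMono (pos n) := by
  apply strictMono_int_of_lt_succ
  intro j
  have := pos_lt_succ n hn j
  omega

/-- Occurrence of the letter `y`. -/
def isY (n : ℤ) (z : ℤ) : Prop := ∃ j, pos n j = z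

lemma isY_add (n : ℤ) (hn : 0 < n) (z m : ℤ) : isY n (z + m * (2 * n * n)) ↔ isY n z := by
  constructor
  · rintro ⟨j, hj⟩
    refine ⟨j + (-m) * n, ?_⟩
    rw [pos_add n hn, hj]; ring
  · rintro ⟨j, hj⟩
    exact ⟨j + m * n, by rw [pos_add n hn, hj]⟩

lemma exists_pos (n : ℤ) (hn : 0 < n) (a : ℤ) : ∃ j, a ≤ pos n j ∧ pos n j ≤ a + 3 * n - 2 := by
  have hlow : ∀ k : ℕ, pos n (-(k : ℤ)) ≤ -k := by
    intro k
    induction k with
    | zero => simp [pos]
    | succ k ih =>
      have := pos_lt_succ n hn (-((k + 1 : ℕ) : ℤ))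
      rw [show -((k + 1 : ℕ) : ℤ) + 1 = -(k : ℤ) by push_cast; ring] at this
      push_cast at this ⊢
      omega
  have hhigh : ∀ k : ℕ, (k : ℤ) ≤ pos n k := by
    intro k
    induction k with
    | zero => simp [pos]
    | succ k ih =>
      have := pos_lt_succ n hn k
      push_cast at this ⊢
      omega
  obtain ⟨j, hj1, hj2⟩ := Int.exists_least_of_bdd (P := fun j => a ≤ pos n j)
    ⟨-|a| - 1, by
      intro z hz
      by_contra hlt
      push Not at hlt
      have h1 := hlow (|a| + 1).toNat
      have h2 : ((|a| + 1).toNat : ℤ) = |a| + 1 := Int.toNat_of_nonneg (by positivity)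
      rw [h2] at h1
      have h3 := (pos_strictMono n hn).monotone (show z ≤ -(|a| + 1) by omega)
      have h4 := neg_abs_le a
      omega⟩
    ⟨|a|, by
      have h1 := hhigh |a|.toNat
      have h2 : (|a|.toNat : ℤ) = |a| := Int.toNat_of_nonneg (by positivity)
      rw [h2] at h1
      have := le_abs_self a
      omega⟩
  refine ⟨j, hj1, ?_⟩
  have h1 : ¬ a ≤ pos n (j - 1) := fun h => by
    have := hj2 _ h
    omega
  have h2 := pos_succ_le n hn (j - 1)
  rw [sub_add_cancel] at h2
  omega

/-- A window of length `6 n` determines the position modulo the period. -/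
lemma window (n : ℤ) (hn : 0 < n) (a b : ℤ)
    (h : ∀ k : ℤ, 0 ≤ k → k < 6 * n → (isY n (a + k) ↔ isY n (b + k))) :
    ∃ m : ℤ, b = a + m * (2 * n * n) := by
  obtain ⟨j, hj1, hj2⟩ := exists_pos n hn a
  have hj3 := pos_succ_le n hn j
  have hj4 := pos_lt_succ n hn j
  have y0 : isY n (b + (pos n j - a)) := by
    rw [← h (pos n j - a) (by omega) (by omega)]
    exact ⟨j, by ring⟩
  have y1 : isY n (b + (pos n (j + 1) - a)) := by
    rw [← h (pos n (j + 1) - a) (by omega) (by omega)]
    exact ⟨j + 1, by ring⟩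
  obtain ⟨j', hj'⟩ := y0
  obtain ⟨j'', hj''⟩ := y1
  have hlt : j' < j'' := (pos_strictMono n hn).lt_iff_lt.1 (by omega)
  have heq : j'' = j' + 1 := by
    by_contra hne
    have h1 : pos n (j' + 1) < pos n j'' := pos_strictMono n hn (by omega)
    have h2 : pos n j' < pos n (j' + 1) := pos_strictMono n hn (by omega)
    have h3 : isY n (a + (pos n (j' + 1) - b)) := by
      rw [h (pos n (j' + 1) - b) (by omega) (by omega)]
      exact ⟨j' + 1, by ring⟩
    obtain ⟨i, hi⟩ := h3
    have h4 : j < i := (pos_strictMono n hn).lt_iff_lt.1 (by omega)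
    have h5 : i < j + 1 := (pos_strictMono n hn).lt_iff_lt.1 (by omega)
    omega
  rw [heq, pos_succ n hn] at hj''
  have hs := pos_succ n hn j
  have hmod : j' % n = j % n := by omega
  refine ⟨j' / n - j / n, ?_⟩
  have h6 : pos n j' = pos n j + (j' / n - j / n) * (2 * n * n) := by
    unfold pos
    rw [hmod]; ring
  linarith

lemma not_isY_succ (n : ℤ) (hn : 0 < n) (z : ℤ) (h : isY n z) : ¬ isY n (z + 1) := by
  rintro ⟨i, hi⟩
  obtain ⟨j, hj⟩ := h
  have h1 : j < i := (pos_strictMono n hn).lt_iff_lt.1 (by omega)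
  have h2 := pos_lt_succ n hn j
  have h3 := (pos_strictMono n hn).monotone (show j + 1 ≤ i by omega)
  omega

open Classical in
/-- The biinfinite word: `x` everywhere except for `y` (or its inverse) at the positions `pos n j`. -/
noncomputable def wd (n : ℤ) (σ : Bool) (z : ℤ) : Bool × Bool :=
  if isY n z then (true, σ) else (false, true)

lemma wd_pos {n : ℤ} {σ : Bool} {z : ℤ} (h : isY n z) : wd n σ z = (true, σ) := if_pos h
lemma wd_neg {n : ℤ} {σ : Bool} {z : ℤ} (h : ¬ isY n z) : wd n σ z = (false, true) := if_neg h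

lemma wd_eq_iff {n : ℤ} {σ σ' : Bool} {z z' : ℤ} (h : wd n σ z = wd n σ' z') :
    (isY n z ↔ isY n z') ∧ (isY n z → σ = σ') := by
  by_cases h1 : isY n z
  · by_cases h2 : isY n z'
    · rw [wd_pos h1, wd_pos h2] at h
      simp at h
      exact ⟨by simp [h1, h2], fun _ => h⟩
    · rw [wd_pos h1, wd_neg h2] at h
      simp at h
  · by_cases h2 : isY n z'
    · rw [wd_neg h1, wd_pos h2] at h
      simp at h
    · exact ⟨by simp [h1, h2], fun h3 => absurd h3 h1⟩

lemma wd_per (n : ℤ) (hn : 0 < n) (σ : Bool) (z m : ℤ) :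
    wd n σ (z + m * (2 * n * n)) = wd n σ z := by
  by_cases h : isY n z
  · rw [wd_pos h, wd_pos ((isY_add n hn z m).2 h)]
  · rw [wd_neg h, wd_neg (fun h' => h ((isY_add n hn z m).1 h'))]

lemma wd_inv2 (n : ℤ) (σ σ' : Bool) (z z' : ℤ) (hz : ¬ isY n z) :
    wd n σ z ≠ inv2 (wd n σ' z') := by
  rw [wd_neg hz]
  by_cases h : isY n z'
  · rw [wd_pos h]; simp [inv2]
  · rw [wd_neg h]; simp [inv2]

lemma wd_red (n : ℤ) (σ : Bool) (z z' : ℤ) : wd n σ z ≠ inv2 (wd n σ z') := by
  by_cases hz : isY n z
  · rw [wd_pos hz]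
    by_cases h : isY n z'
    · rw [wd_pos h]; cases σ <;> simp [inv2]
    · rw [wd_neg h]; simp [inv2]
  · exact wd_inv2 n σ σ z z' hz

/-- The words of the example. -/
noncomputable def words (K n : ℤ) (hK : 20 ≤ K) (hn : 3 * K ≤ n) : Words Bool where
  B := {b | ∃ σ : Bool, b = (wd n σ, 2 * n * n)}
  K := K
  hK := hK
  per := by
    rintro _ ⟨σ, rfl⟩ k
    have := wd_per n (by omega) σ k 1
    simpa using this
  red := by
    rintro _ ⟨σ, rfl⟩ k
    exact wd_red n σ _ _
  KL := by
    rintro _ ⟨σ, rfl⟩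
    show K ≤ 2 * n * n
    nlinarith
  sc := by
    rintro _ ⟨σ, rfl⟩ _ ⟨σ', rfl⟩ s s' ε ε' t h1 h2
    simp only at h1 h2
    refine ⟨?_, rfl⟩
    have hn0 : 0 < n := by omega
    have ht : 6 * n ≤ t := by
      by_contra hlt
      push Not at hlt
      have h3 : 2 * n * n ≤ K * t := by rcases h2 with h | h <;> exact h
      nlinarith
    have key : ∀ a b : ℤ, (∀ k : ℤ, 0 ≤ k → k < t → wd n σ (a + k) = wd n σ' (b + k)) →
        σ = σ' ∧ ∃ m, b = a + m * (2 * n * n) := by
      intro a b hab
      constructor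
      · obtain ⟨j, hj1, hj2⟩ := exists_pos n hn0 a
        have h3 := hab (pos n j - a) (by omega) (by omega)
        exact (wd_eq_iff h3).2 ⟨j, by ring⟩
      · apply window n hn0
        intro k hk hk'
        exact (wd_eq_iff (hab k hk (by omega))).1
    have nonY : ∀ a : ℤ, ∃ k : ℤ, 0 ≤ k ∧ k < t ∧ ¬ isY n (a + k) := by
      intro a
      by_cases h : isY n a
      · exact ⟨1, by norm_num, by omega, not_isY_succ n hn0 a h⟩
      · exact ⟨0, le_rfl, by omega, by simpa using h⟩
    cases ε with
    | true =>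
      cases ε' with
      | true =>
        obtain ⟨e, m, hm⟩ := key s s' (fun k hk hk' => by
          have := h1 k.toNat (by omega)
          simp only [lab, Int.toNat_of_nonneg hk] at this
          exact this)
        subst e
        intro k
        simp only [lab]
        rw [hm, show s + m * (2 * n * n) + k = s + k + m * (2 * n * n) by ring, wd_per n hn0]
      | false =>
        exfalso
        obtain ⟨k, hk, hk', hky⟩ := nonY s
        have := h1 k.toNat (by omega)
        simp only [lab, Int.toNat_of_nonneg hk] at this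
        exact wd_inv2 n σ σ' _ _ hky this
    | false =>
      cases ε' with
      | true =>
        exfalso
        obtain ⟨k, hk, hk', hky⟩ := nonY s'
        have := h1 k.toNat (by omega)
        simp only [lab, Int.toNat_of_nonneg hk] at this
        exact wd_inv2 n σ' σ _ _ hky this.symm
      | false =>
        obtain ⟨e, m, hm⟩ := key (s - t) (s' - t) (fun k hk hk' => by
          have := h1 (t - 1 - k).toNat (by omega)
          simp only [lab, Int.toNat_of_nonneg (show 0 ≤ (t : ℤ) - 1 - k by omega)] at this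
          have := inv2_injective this
          rw [show s - t + k = s - (t - 1 - k) - 1 by ring,
            show s' - t + k = s' - (t - 1 - k) - 1 by ring]
          exact this)
        subst e
        intro k
        simp only [lab]
        rw [show s' - k - 1 = s - k - 1 + m * (2 * n * n) by linarith, wd_per n hn0]

lemma prim (K n : ℤ) (hK : 20 ≤ K) (hn : 3 * K ≤ n) : (words K n hK hn).Prim := by
  rintro _ ⟨σ, rfl⟩ m h0 h1
  by_contra hcon
  push Not at hcon
  simp only at hcon h1
  obtain ⟨r, hr⟩ := window n (by omega) 0 m (fun k _ _ => by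
    have := (wd_eq_iff (hcon k)).1
    rw [zero_add, add_comm m k]
    exact this.symm)
  rw [zero_add] at hr
  rw [hr] at h0 h1
  have h2 : 0 < 2 * n * n := by nlinarith
  have h3 : 0 < r := by
    by_contra h
    push Not at h
    nlinarith
  have h4 : r < 1 := by
    by_contra h
    push Not at h
    nlinarith
  omega

end NonUP

/-- Letters are nontrivial modulo the relators. -/
lemma Words.letter_not_mem {α : Type*} [DecidableEq α] (S : Words α) (a : α × Bool) :
    (FreeGroup.mk [a] : FreeGroup α) ∉ S.toFam.N := by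
  intro h
  have h1 : (FreeGroup.mk [a] : FreeGroup α) ≠ 1 := by
    intro h
    have := congrArg FreeGroup.toWord h
    simp at this
  obtain ⟨x, hx, D, hD, hKD, hd⟩ := S.toFam.greendlinger _ h h1
  have hKL := S.toFam.KL _ hx
  have hK := S.toFam.hK
  have e : (FreeGroup.mk [a] : FreeGroup α) • (S.toFam.v0) = FreeGroup.mk [a] := by
    show FreeGroup.mk [a] * 1 = FreeGroup.mk [a]
    simp
  rw [e] at hd
  have h2 : S.toFam.T.d S.toFam.v0 (FreeGroup.mk [a]) ≤ 1 := by
    show fd 1 _ ≤ 1
    rw [fd_one]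
    have := FreeGroup.norm_mk_le (L₁ := [a])
    exact_mod_cast this
  have h3 := S.toFam.T.d_nonneg S.toFam.v0 (x.1 0)
  have h4 := S.toFam.T.d_nonneg (x.1 D) (FreeGroup.mk [a])
  have h5 : D ≤ 1 := by omega
  nlinarith

end Pool.Agent.H17R2
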