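import Mathlib
import Pool.Agent.H17R2.NonUP

set_option autoImplicit false

/-!
# The presentation, its small cancellation condition, and failure of unique products
-/

namespace Pool.Agent.H17R2

namespace NonUP

open FreeGroup

variable (K n : ℤ) (hK : 20 ≤ K) (hn : 3 * K ≤ n)

/-- The relator as a list. -/
noncomputable def rl (n : ℤ) (σ : Bool) : List (Bool × Bool) :=
  (List.range (2 * n * n).toNat).map (fun i : ℕ => wd n σ i)

/-- The relators. -/
def R (n : ℤ) : Set (FreeGroup Bool) := {r | ∃ σ, r = FreeGroup.mk (rl n σ)}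

lemma rel_eq : (words K n hK hn).rel = R n := by
  ext r
  have hL : ((2 * n * n).toNat : ℤ) = 2 * n * n := Int.toNat_of_nonneg (by nlinarith)
  constructor
  · rintro ⟨_, ⟨σ, rfl⟩, rfl⟩
    refine ⟨σ, ?_⟩
    show zw (wd n σ) (2 * n * n) = _
    rw [← hL, zw_nat]; rfl
  · rintro ⟨σ, rfl⟩
    refine ⟨_, ⟨σ, rfl⟩, ?_⟩
    show _ = zw (wd n σ) (2 * n * n)
    rw [← hL, zw_nat]; rfl

lemma isReduced_of_sub {l : List (Bool × Bool)} {n : ℤ} {σ : Bool}
    (h : ∀ a ∈ l, ∃ z, a = wd n σ z) : FreeGroup.IsReduced l := by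
  unfold FreeGroup.IsReduced
  rw [List.isChain_iff_getElem]
  intro i hi h12
  obtain ⟨z, hz⟩ := h l[i] (List.getElem_mem _)
  obtain ⟨z', hz'⟩ := h l[i + 1] (List.getElem_mem _)
  by_contra hne
  apply wd_red n σ z' z
  rw [← hz, ← hz']
  apply Prod.ext
  · exact h12.symm
  · simp only [inv2]
    revert hne
    cases l[i].2 <;> cases l[i + 1].2 <;> simp

lemma mem_rl {a : Bool × Bool} {n : ℤ} {σ : Bool} (h : a ∈ rl n σ) : ∃ z, a = wd n σ z := by
  unfold rl at h
  simp only [List.mem_map] at h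
  obtain ⟨i, _, hi⟩ := h
  exact ⟨i, hi.symm⟩

lemma toWord_rl (n : ℤ) (σ : Bool) : (FreeGroup.mk (rl n σ)).toWord = rl n σ := by
  rw [toWord_mk]
  exact (isReduced_of_sub (fun a ha => mem_rl ha)).reduce_eq

lemma length_rl (n : ℤ) (σ : Bool) : (rl n σ).length = (2 * n * n).toNat := by
  simp [rl]

lemma cyc_red (n : ℤ) (r : FreeGroup Bool) (hr : r ∈ R n) (m : ℕ) :
    FreeGroup.toWord (FreeGroup.mk ((FreeGroup.toWord r).rotate m)) =
      (FreeGroup.toWord r).rotate m := by
  obtain ⟨σ, rfl⟩ := hr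
  rw [toWord_rl, toWord_mk]
  apply (isReduced_of_sub (n := n) (σ := σ) _).reduce_eq
  intro a ha
  rw [List.mem_rotate] at ha
  exact mem_rl ha

include hn hK in
lemma rot_lab (l : List (Bool × Bool)) (hl : ∃ r ∈ R n, ∃ m : ℕ,
    l = (FreeGroup.toWord r).rotate m ∨ l = (FreeGroup.toWord r⁻¹).rotate m) :
    ∃ σ s ε, (l.length : ℤ) = 2 * n * n ∧
      ∀ k : ℕ, ∀ hk : k < l.length, l[k] = lab (wd n σ) s ε k := by
  have hn0 : 0 < n := by omega
  have hLpos : 0 < 2 * n * n := by nlinarith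
  obtain ⟨N, hN⟩ := Int.eq_ofNat_of_zero_le hLpos.le
  have hNt : (2 * n * n).toNat = N := by rw [hN]; simp
  have hN0 : 0 < N := by
    have : (0 : ℤ) < N := by rw [← hN]; exact hLpos
    exact_mod_cast this
  obtain ⟨r, ⟨σ, rfl⟩, m, hm⟩ := hl
  rw [toWord_inv, toWord_rl] at hm
  have hmodper : ∀ z : ℕ, wd n σ (((z % N : ℕ) : ℤ)) = wd n σ z := by
    intro z
    have h1 := Nat.mod_add_div z N
    have h2 : (z : ℤ) = ((z % N : ℕ) : ℤ) + ((z / N : ℕ) : ℤ) * (2 * n * n) := by
      have h3 : (z : ℤ) = ((z % N : ℕ) : ℤ) + (N : ℤ) * ((z / N : ℕ) : ℤ) := by exact_mod_cast h1.symm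
      rw [hN]
      linarith
    rw [h2, wd_per n hn0]
  rcases hm with rfl | rfl
  · refine ⟨σ, m, true, ?_, ?_⟩
    · rw [List.length_rotate, length_rl, hNt, hN]
    · intro k hk
      rw [List.getElem_rotate]
      have e : (rl n σ)[(k + m) % (rl n σ).length]'(Nat.mod_lt _ (by
          rw [length_rl, hNt]; exact hN0)) = wd n σ (((k + m) % (rl n σ).length : ℕ) : ℤ) := by
        simp [rl]
      rw [e, length_rl, hNt, hmodper]
      simp only [lab]
      congr 1; push_cast; ring
  · refine ⟨σ, -m, false, ?_, ?_⟩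
    · rw [List.length_rotate, invRev_length, length_rl, hNt, hN]
    · intro k hk
      rw [List.getElem_rotate]
      have hlen : (invRev (rl n σ)).length = N := by rw [invRev_length, length_rl, hNt]
      have hlt : (k + m) % N < N := Nat.mod_lt _ hN0
      have e : ∀ i : ℕ, ∀ hi : i < (invRev (rl n σ)).length,
          (invRev (rl n σ))[i] = inv2 (wd n σ ((N : ℤ) - 1 - i)) := by
        intro i hi
        have hi' : i < N := by rwa [hlen] at hi
        simp only [invRev, rl, List.getElem_reverse, List.getElem_map, List.getElem_range,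
          List.length_map, List.length_range, hNt]
        show inv2 _ = inv2 _
        congr 2
        omega
      rw [e]
      simp only [lab, hlen]
      congr 1
      have h1 := Nat.mod_add_div (k + m) N
      have h2 : (((k + m) % N : ℕ) : ℤ) = k + m - ((((k + m) / N : ℕ) : ℤ)) * (2 * n * n) := by
        have h3 : ((((k + m) % N : ℕ) : ℤ)) + (N : ℤ) * (((k + m) / N : ℕ) : ℤ) = k + m := by
          exact_mod_cast h1
        rw [hN]
        linarith
      rw [h2]
      have h4 : (N : ℤ) - 1 - ((k : ℤ) + m - ((((k + m) / N : ℕ) : ℤ)) * (2 * n * n)) =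
          -(m : ℤ) - k - 1 + (((((k + m) / N : ℕ) : ℤ)) + 1) * (2 * n * n) := by
        have : (N : ℤ) = 2 * n * n := hN.symm
        rw [this]; ring
      rw [h4, wd_per n hn0]

include hn hK in
/-- The metric small cancellation condition. -/
theorem metric (lam : ℝ) (hlam : 1 ≤ lam * K) (l₁ l₂ : List (Bool × Bool))
    (h1 : ∃ r ∈ R n, ∃ m : ℕ,
      l₁ = (FreeGroup.toWord r).rotate m ∨ l₁ = (FreeGroup.toWord r⁻¹).rotate m)
    (h2 : ∃ r ∈ R n, ∃ m : ℕ,
      l₂ = (FreeGroup.toWord r).rotate m ∨ l₂ = (FreeGroup.toWord r⁻¹).rotate m)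
    (hne : l₁ ≠ l₂) (u : List (Bool × Bool)) (hu1 : List.IsPrefix u l₁)
    (hu2 : List.IsPrefix u l₂) : (u.length : ℝ) < lam * (l₁.length : ℝ) := by
  by_contra hcon
  push Not at hcon
  apply hne
  obtain ⟨σ, s, ε, hlen1, hlab1⟩ := rot_lab K n hK hn l₁ h1
  obtain ⟨σ', s', ε', hlen2, hlab2⟩ := rot_lab K n hK hn l₂ h2
  have hlen : l₁.length = l₂.length := by
    have := hlen1.trans hlen2.symm
    exact_mod_cast this
  have hul1 := hu1.length_le
  have hul2 := hu2.length_le
  have hsc := (words K n hK hn).sc (wd n σ, 2 * n * n) ⟨σ, rfl⟩ (wd n σ', 2 * n * n) ⟨σ', rfl⟩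
    s s' ε ε' u.length (by
      intro k hk
      show lab (wd n σ) s ε k = lab (wd n σ') s' ε' k
      rw [← hlab1 k (by omega), ← hlab2 k (by omega), ← hu1.getElem hk, ← hu2.getElem hk])
    (by
      left
      show 2 * n * n ≤ K * (u.length : ℤ)
      have h3 : (l₁.length : ℝ) ≤ K * (u.length : ℝ) := by
        have hKpos : (0 : ℝ) < K := by
          have : (0 : ℤ) < K := by omega
          exact_mod_cast this
        have h4 : (0 : ℝ) ≤ l₁.length := by positivity
        have h5 : K * (lam * (l₁.length : ℝ)) ≤ K * (u.length : ℝ) :=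
          mul_le_mul_of_nonneg_left hcon hKpos.le
        nlinarith
      rw [← hlen1]
      exact_mod_cast h3)
  apply List.ext_getElem hlen
  intro k hk1 hk2
  rw [hlab1 k hk1, hlab2 k hk2]
  exact hsc.1 k

include hK hn in
theorem torsion (g : PresentedGroup (R n)) (hg : IsOfFinOrder g) : g = 1 := by
  obtain ⟨m, hm, hgm⟩ := isOfFinOrder_iff_pow_eq_one.1 hg
  obtain ⟨g, rfl⟩ := QuotientGroup.mk_surjective g
  have hN : (words K n hK hn).toFam.N = Subgroup.normalClosure (R n) := by
    rw [Words.N_eq, rel_eq]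
  have h1 : g ^ m ∈ (words K n hK hn).toFam.N := by
    rw [hN, ← QuotientGroup.eq_one_iff]
    exact hgm
  have h2 := (words K n hK hn).torsion_free (prim K n hK hn) m hm _ g le_rfl h1
  rw [hN, ← QuotientGroup.eq_one_iff] at h2
  exact h2

/-- The path in the presented group. -/
noncomputable def pth (n : ℤ) (σ : Bool) (k : ℤ) : PresentedGroup (R n) :=
  PresentedGroup.mk (R n) (zw (wd n σ) k)

/-- The letters in the presented group. -/
noncomputable def lt (n : ℤ) (a : Bool × Bool) : PresentedGroup (R n) :=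
  PresentedGroup.mk (R n) (FreeGroup.mk [a])

lemma pth_succ (n : ℤ) (σ : Bool) (k : ℤ) : pth n σ (k + 1) = pth n σ k * lt n (wd n σ k) := by
  unfold pth lt
  rw [← _root_.map_mul, zw_succ]

include hK hn in
lemma pth_per (σ : Bool) (m k : ℤ) : pth n σ (k + m * (2 * n * n)) = pth n σ k := by
  unfold pth
  have hn0 : 0 < n := by omega
  have h := zp_mul_period (fun k => (FreeGroup.mk [wd n σ k] : FreeGroup Bool)) (2 * n * n)
    (fun k => by
      have := wd_per n hn0 σ k 1
      rw [one_mul] at this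
      rw [this]) m k
  change zw (wd n σ) (k + m * (2 * n * n)) = zw (wd n σ) (2 * n * n) ^ m * zw (wd n σ) k at h
  rw [h, _root_.map_mul, _root_.map_zpow]
  have h1 : PresentedGroup.mk (R n) (zw (wd n σ) (2 * n * n)) = 1 := by
    apply (QuotientGroup.eq_one_iff _).2
    apply Subgroup.subset_normalClosure
    rw [← rel_eq K n hK hn]
    exact ⟨_, ⟨σ, rfl⟩, rfl⟩
  rw [h1]; simp

include hK hn in
lemma lt_ne_one (a : Bool × Bool) : lt n a ≠ 1 := by
  intro h
  have h1 := (QuotientGroup.eq_one_iff _).1 h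
  apply (words K n hK hn).letter_not_mem a
  rw [Words.N_eq, rel_eq]
  exact h1

lemma lt_inv (n : ℤ) (a : Bool × Bool) : lt n (inv2 a) = (lt n a)⁻¹ := by
  unfold lt
  rw [mk_inv2, _root_.map_inv]

include hK hn in
/-- Every product along the two paths is obtained twice. -/
lemma double (i j : ℤ) : ∃ i' j', pth n true i' ≠ pth n true i ∧
    pth n true i' * (pth n false j')⁻¹ = pth n true i * (pth n false j)⁻¹ := by
  have hn0 : 0 < n := by omega
  have hY : ∀ z, isY n z → ¬ isY n (z - 1) := fun z hz h => by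
    have := not_isY_succ n hn0 (z - 1) h
    rw [sub_add_cancel] at this
    exact this hz
  have a1 := pth_succ n true i
  have a2 := pth_succ n true (i - 1)
  have b1 := pth_succ n false j
  have b2 := pth_succ n false (j - 1)
  rw [sub_add_cancel] at a2 b2
  obtain ⟨X, hX⟩ : ∃ X, X = lt n (false, true) := ⟨_, rfl⟩
  obtain ⟨Y, hYd⟩ : ∃ Y, Y = lt n (true, true) := ⟨_, rfl⟩
  have hY' : lt n (true, false) = Y⁻¹ := by
    rw [hYd, ← lt_inv]; rfl
  have hX1 : X ≠ 1 := by rw [hX]; exact lt_ne_one K n hK hn _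
  have hY1 : Y ≠ 1 := by rw [hYd]; exact lt_ne_one K n hK hn _
  by_cases hi : isY n i
  · have hi' := hY i hi
    rw [wd_pos hi, ← hYd] at a1
    rw [wd_neg hi', ← hX] at a2
    by_cases hj : isY n (j - 1)
    · rw [wd_pos hj, hY'] at b2
      refine ⟨i + 1, j - 1, ?_, ?_⟩
      · rw [a1]; simpa using hY1
      · rw [a1, b2]; group
    · rw [wd_neg hj, ← hX] at b2
      refine ⟨i - 1, j - 1, ?_, ?_⟩
      · rw [a2]; simpa using hX1
      · rw [a2, b2]; group
  · by_cases hj : isY n j
    · have hj' := hY j hj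
      rw [wd_pos hj, hY'] at b1
      rw [wd_neg hj', ← hX] at b2
      by_cases hi' : isY n (i - 1)
      · rw [wd_pos hi', ← hYd] at a2
        refine ⟨i - 1, j + 1, ?_, ?_⟩
        · rw [a2]; simpa using hY1
        · rw [a2, b1]; group
      · rw [wd_neg hi', ← hX] at a2
        refine ⟨i - 1, j - 1, ?_, ?_⟩
        · rw [a2]; simpa using hX1
        · rw [a2, b2]; group
    · rw [wd_neg hi, ← hX] at a1
      rw [wd_neg hj, ← hX] at b1
      refine ⟨i + 1, j + 1, ?_, ?_⟩
      · rw [a1]; simpa using hX1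
      · rw [a1, b1]; group

include hK hn in
theorem not_up : ¬ UniqueProds (PresentedGroup (R n)) := by
  classical
  intro hU
  have hn0 : 0 < n := by omega
  have hLpos : 0 < 2 * n * n := by nlinarith
  let A : Finset (PresentedGroup (R n)) :=
    (Finset.range (2 * n * n).toNat).image (fun i : ℕ => pth n true i)
  let B : Finset (PresentedGroup (R n)) :=
    (Finset.range (2 * n * n).toNat).image (fun i : ℕ => (pth n false i)⁻¹)
  have hmod : ∀ σ : Bool, ∀ k : ℤ, ∃ i : ℕ, i < (2 * n * n).toNat ∧ pth n σ i = pth n σ k := by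
    intro σ k
    refine ⟨(k % (2 * n * n)).toNat, ?_, ?_⟩
    · have h1 := Int.emod_nonneg k hLpos.ne'
      have h2 := Int.emod_lt_of_pos k hLpos
      omega
    · have h1 := Int.emod_nonneg k hLpos.ne'
      rw [Int.toNat_of_nonneg h1]
      have h3 := Int.emod_add_mul_ediv k (2 * n * n)
      have h4 := pth_per K n hK hn σ (k / (2 * n * n)) (k % (2 * n * n))
      rw [mul_comm (k / (2 * n * n)), h3] at h4
      exact h4.symm
  have hA : ∀ k : ℤ, pth n true k ∈ A := by
    intro k
    obtain ⟨i, hi, hik⟩ := hmod true k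
    exact Finset.mem_image.2 ⟨i, Finset.mem_range.2 hi, hik⟩
  have hB : ∀ k : ℤ, (pth n false k)⁻¹ ∈ B := by
    intro k
    obtain ⟨i, hi, hik⟩ := hmod false k
    exact Finset.mem_image.2 ⟨i, Finset.mem_range.2 hi, by rw [hik]⟩
  obtain ⟨a, ha, b, hb, hab⟩ := hU.uniqueMul_of_nonempty ⟨_, hA 0⟩ ⟨_, hB 0⟩
  obtain ⟨i, _, rfl⟩ := Finset.mem_image.1 ha
  obtain ⟨j, _, rfl⟩ := Finset.mem_image.1 hb
  obtain ⟨i', j', h1, h2⟩ := double K n hK hn i j
  exact h1 (hab (hA i') (hB j') h2).1

end NonUP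

end Pool.Agent.H17R2
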